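import Pool.Agent.N912.HL.H4
import Pool.Agent.W251.EG.AllC0

/-!
Project HL (helper912), part 5: Halasz's theorem for the norms of the elements of a quadratic order,
twisted by the characters modulo `M`.
-/

set_option autoImplicit false

namespace Pool.Agent.N912.HL

open Finset Filter Topology
open Pool.Agent.Y122.LT (al)
open Pool.Agent.W78.GA
open Pool.Agent.W78.EG
open Pool.Agent.W251.GX (Cm)
open Pool.Agent.H304R3.HK (Lg)
open Pool.Agent.W584.EG (rr aL_le sum_rr sum_ball uc_pos phi_le phi_pow)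
open Pool.Agent.W738.EG (CG)
open scoped ArithmeticFunction.vonMangoldt

variable {t c : ℤ} {f : ℕ} {χ : DirichletCharacter ℂ f}

theorem rm_rr (hD : t ^ 2 < 4 * c) : ∃ ρ C : ℝ, 0 < ρ ∧ Rm (rr t c) ρ C := by
  obtain ⟨C, hC, hlat, -⟩ := Pool.Agent.W45.GA.lat (t := t) (c := c) hD
  have hu : (0 : ℝ) < uc t c := by exact_mod_cast uc_pos hD
  have hk : 0 < kap t c := by
    unfold kap
    have h1 := disc_pos hD
    have h2 := Real.pi_pos
    positivity
  refine ⟨kap t c / uc t c, max 1 (max (kap t c / uc t c) (C / uc t c)), by positivity,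
    ⟨fun n => ?_, ?_, le_max_left _ _, ?_, fun N => ?_⟩⟩
  · unfold rr; positivity
  · unfold rr
    rw [show (ball t c ((0 : ℕ) : ℝ)).filter (fun z => nm z = 0) = ∅ from ?_]
    · simp
    · rw [Finset.filter_eq_empty_iff]
      intro z hz h0
      rw [mem_ball hD] at hz
      omega
  · rw [abs_of_pos (by positivity)]
    exact (le_max_left _ _).trans (le_max_right _ _)
  · rw [sum_rr hD]
    rcases Nat.eq_zero_or_pos N with rfl | hN
    · have : ball t c ((0 : ℕ) : ℝ) = ∅ := by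
        rw [Finset.eq_empty_iff_forall_notMem]
        intro z hz
        rw [mem_ball hD] at hz
        have h2 : (nm z : ℝ) ≤ 0 := by simpa using hz.2
        have h3 : (1 : ℝ) ≤ nm z := by exact_mod_cast hz.1
        linarith
      rw [this]
      simp
    · have hn1 : (1 : ℝ) ≤ N := by exact_mod_cast hN
      have h1 := hlat N 1 0 hn1 le_rfl
      have h2 : (ball t c (N : ℝ)).filter (lat 1 0) = ball t c (N : ℝ) := by
        apply Finset.filter_true_of_mem
        intro z _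
        unfold lat
        exact one_dvd _
      rw [h2, Nat.cast_one, div_one] at h1
      have h3 : ((ball t c (N : ℝ)).card : ℝ) / (uc t c : ℝ) - kap t c / uc t c * N =
          (((ball t c (N : ℝ)).card : ℝ) - kap t c * N) / uc t c := by
        field_simp
      rw [h3, abs_div, abs_of_pos hu, div_le_iff₀ hu]
      refine h1.trans ?_
      have h4 : C / uc t c ≤ max 1 (max (kap t c / uc t c) (C / uc t c)) :=
        (le_max_right _ _).trans (le_max_right _ _)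
      rw [div_le_iff₀ hu] at h4
      have h5 := mul_le_mul_of_nonneg_right h4 (Real.sqrt_nonneg (N : ℝ))
      calc C * Real.sqrt N ≤ _ := h5
        _ = _ := by ring

theorem hs_of (hD : t ^ 2 < 4 * c) {M : ℕ} {φ : Qd t c → ℂ} (hM : 1 ≤ M) (H : HCh M φ)
    {g : ℕ → ℂ} (hLg : Lg (aL φ) g) {F : ℕ → ℂ} (hF1 : ∀ n, ‖F n‖ = 1)
    (hFm : ∀ x y : ℕ, x ≠ 0 → y ≠ 0 → F (x * y) = F x * F y) :
    Hs (rr t c) (fun n => F n * aL φ n) (fun n => F n * ((Λ n : ℂ) * g n)) where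
  zero := by rw [hLg.b0, mul_zero]
  one := by
    have h1 := hFm 1 1 one_ne_zero one_ne_zero
    rw [mul_one] at h1
    have h2 : F 1 ≠ 0 := by
      intro h3
      have := hF1 1
      rw [h3, norm_zero] at this
      exact zero_ne_one this
    have h3 : F 1 = 1 := by
      have h4 : F 1 * F 1 = F 1 * 1 := by rw [← h1, mul_one]
      exact mul_left_cancel₀ h2 h4
    rw [h3, hLg.b1, mul_one]
  le := fun n => by
    rw [norm_mul, hF1, one_mul]
    exact aL_le hD (phi_le hM H) n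
  Lle := fun n => by
    rw [norm_mul, hF1, one_mul, norm_mul, Complex.norm_real,
      Real.norm_of_nonneg ArithmeticFunction.vonMangoldt_nonneg, mul_comm]
    exact mul_le_mul_of_nonneg_right (hLg.cd n) ArithmeticFunction.vonMangoldt_nonneg
  conv := by
    funext n
    rw [LSeries.convolution_def]
    show F n * aL φ n * (Real.log n : ℂ) = ∑ p ∈ n.divisorsAntidiagonal,
      F p.1 * aL φ p.1 * (F p.2 * ((Λ p.2 : ℂ) * g p.2))
    rcases Nat.eq_zero_or_pos n with h0 | h0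
    · subst h0; simp
    rw [Nat.sum_divisorsAntidiagonal' (f := fun u d => F u * aL φ u * (F d * ((Λ d : ℂ) * g d))),
      mul_assoc, hLg.lg n h0.ne', Finset.mul_sum]
    refine sum_congr rfl fun d hd => ?_
    obtain ⟨⟨e, rfl⟩, _⟩ := Nat.mem_divisors.1 hd
    have hd0 : d ≠ 0 := fun h => h0.ne' (by simp [h])
    have he0 : e ≠ 0 := fun h => h0.ne' (by simp [h])
    rw [Nat.mul_div_cancel_left e (Nat.pos_of_ne_zero hd0), hFm d e hd0 he0]
    ring

theorem hch_one (_ : t ^ 2 < 4 * c) : HCh 1 (fun _ : Qd t c => (1 : ℂ)) where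
  per := fun _ _ _ _ => rfl
  mul := fun _ _ => (one_mul 1).symm
  one := rfl
  unit := fun _ _ => rfl
  ne := fun z => by
    rw [Nat.cast_one]
    exact ⟨fun _ => isCoprime_one_right, fun _ => one_ne_zero⟩

theorem aL_one (n : ℕ) : aL (fun _ : Qd t c => (1 : ℂ)) n = (rr t c n : ℂ) := by
  unfold aL rr
  rw [sum_const, nsmul_eq_mul, mul_one]
  push_cast
  rfl

theorem hs_one (hF : Fd t c f χ) : ∃ L₁ : ℕ → ℂ, Hs (rr t c) (fun n => (rr t c n : ℂ)) L₁ := by
  have hD := Pool.Agent.W251.EG.hDG hF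
  obtain ⟨g, _, hLg, _⟩ := Pool.Agent.W251.EG.pntcG hF 1 _ le_rfl (hch_one hD)
  have h := hs_of hD le_rfl (hch_one hD) hLg (F := fun _ => 1) (by simp) (by simp)
  refine ⟨fun n => (1 : ℂ) * ((Λ n : ℂ) * g n), ?_⟩
  have e : (fun n => (rr t c n : ℂ)) = fun n => (1 : ℂ) * aL (fun _ : Qd t c => (1 : ℂ)) n := by
    funext n
    rw [one_mul, aL_one]
  rw [e]
  exact h

/-! ### Powers -/

theorem norm_sub_sq {u : ℂ} (hu : ‖u‖ = 1) : ‖1 - u‖ ^ 2 = 2 * (1 - u.re) := by
  rw [← Complex.normSq_eq_norm_sq, Complex.normSq_apply]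
  have h1 : u.re * u.re + u.im * u.im = 1 := by
    have := Complex.normSq_eq_norm_sq u
    rw [Complex.normSq_apply, hu] at this
    linarith
  simp only [Complex.sub_re, Complex.one_re, Complex.sub_im, Complex.one_im]
  nlinarith

theorem pow_dist {u : ℂ} (hu : ‖u‖ = 1) (N : ℕ) : 1 - (u ^ N).re ≤ (N : ℝ) ^ 2 * (1 - u.re) := by
  have h1 : ‖1 - u ^ N‖ ≤ N * ‖1 - u‖ := by
    induction N with
    | zero => simp
    | succ N ih =>
      have h2 : 1 - u ^ (N + 1) = (1 - u ^ N) + u ^ N * (1 - u) := by ring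
      rw [h2]
      refine (norm_add_le _ _).trans ?_
      rw [norm_mul, norm_pow, hu, one_pow, one_mul]
      push_cast
      linarith
  have h2 : ‖u ^ N‖ = 1 := by rw [norm_pow, hu, one_pow]
  have h3 := pow_le_pow_left₀ (norm_nonneg _) h1 2
  rw [mul_pow, norm_sub_sq hu, norm_sub_sq h2] at h3
  linarith

theorem hch_pow {M N : ℕ} {φ : Qd t c → ℂ} (H : HCh M φ) (hN : 1 ≤ N) :
    HCh M (fun z => φ z ^ N) where
  per := fun z z' h1 h2 => by rw [H.per z z' h1 h2]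
  mul := fun z z' => by rw [H.mul, mul_pow]
  one := by rw [H.one, one_pow]
  unit := fun u hu => by rw [H.unit u hu, one_pow]
  ne := fun z => by
    rw [← H.ne z]
    exact pow_ne_zero_iff (by omega)

theorem phi_one {M : ℕ} {φ : Qd t c → ℂ} (hM : 1 ≤ M) (H : HCh M φ) {z : Qd t c}
    (hz : IsCoprime z (M : Qd t c)) : ‖φ z‖ = 1 := by
  obtain ⟨a, b, hab⟩ := hz
  have h1 : φ (a * z) = 1 := by
    rw [← H.one]
    refine H.per _ _ ?_ ?_
    · have h2 : a * z - 1 = (M : Qd t c) * (-b) := by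
        rw [← hab]; ring
      have h3 : (M : Qd t c) ∣ a * z - 1 := ⟨_, h2⟩
      rw [natCast_dvd] at h3
      exact h3.1
    · have h2 : a * z - 1 = (M : Qd t c) * (-b) := by
        rw [← hab]; ring
      have h3 : (M : Qd t c) ∣ a * z - 1 := ⟨_, h2⟩
      rw [natCast_dvd] at h3
      exact h3.2
  rw [H.mul] at h1
  have h2 := congrArg norm h1
  rw [norm_mul, norm_one] at h2
  have h3 := phi_le hM H a
  have h4 := phi_le hM H z
  refine le_antisymm h4 ?_
  by_contra h5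
  push Not at h5
  have h6 : ‖φ a‖ * ‖φ z‖ < 1 := by
    calc ‖φ a‖ * ‖φ z‖ ≤ 1 * ‖φ z‖ := mul_le_mul_of_nonneg_right h3 (norm_nonneg _)
      _ < 1 := by rw [one_mul]; exact h5
  linarith

theorem cop_of_prime (hD : t ^ 2 < 4 * c) {M p : ℕ} (hp : p.Prime) (hpM : ¬ p ∣ M) {z : Qd t c}
    (hz : nm z = p) : IsCoprime z (M : Qd t c) := by
  have h1 : IsCoprime (p : ℤ) (M : ℤ) :=
    Nat.isCoprime_iff_coprime.2 ((Nat.Prime.coprime_iff_not_dvd hp).2 hpM)
  obtain ⟨a, b, hab⟩ := h1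
  refine ⟨(a : Qd t c) * star z, (b : Qd t c), ?_⟩
  rw [mul_assoc, star_mul_self' hD, hz]
  have h2 : ((a * p + b * M : ℤ) : Qd t c) = 1 := by rw [hab]; simp
  push_cast at h2
  exact h2

/-- the deficit as a sum over the elements of norm `p` -/
theorem deficit (hD : t ^ 2 < 4 * c) {φ : Qd t c → ℂ} {F : ℕ → ℂ} (y : ℝ) {p : ℕ} (hp : p.Prime) :
    gg (rr t c) (fun n => F n * aL φ n) 0 y p = (p : ℝ) ^ (-(1 : ℝ)) *
      ((∑ z ∈ (ball t c (p : ℝ)).filter (fun z => nm z = p),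
        (1 - (F p * φ z * (p : ℂ) ^ (-(y * Complex.I))).re)) / uc t c) := by
  have hu : (uc t c : ℝ) ≠ 0 := by exact_mod_cast (uc_pos hD).ne'
  have huc : (uc t c : ℂ) ≠ 0 := by exact_mod_cast (uc_pos hD).ne'
  unfold gg
  rw [if_pos hp, add_zero]
  congr 1
  rw [sum_sub_distrib, sum_const, nsmul_eq_mul, mul_one, sub_div]
  congr 1
  have h1 : F p * aL φ p * (p : ℂ) ^ (-(y * Complex.I)) =
      (∑ z ∈ (ball t c (p : ℝ)).filter (fun z => nm z = p),
        F p * φ z * (p : ℂ) ^ (-(y * Complex.I))) / ((uc t c : ℝ) : ℂ) := by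
    unfold aL
    rw [mul_div_assoc', div_mul_eq_mul_div, mul_sum, sum_mul]
    push_cast
    rfl
  rw [h1, Complex.div_ofReal_re, Complex.re_sum]

theorem gg_pow (hD : t ^ 2 < 4 * c) {M N : ℕ} (hM : 1 ≤ M) {φ : Qd t c → ℂ} (H : HCh M φ)
    {F : ℕ → ℂ} (hF : ∀ n, F n ^ N = 1) (hN : 1 ≤ N) (y : ℝ) {p : ℕ} (hp : p.Prime)
    (hpM : ¬ p ∣ M) :
    gg (rr t c) (fun n => (1 : ℂ) * aL (fun z => φ z ^ N) n) 0 (N * y) p ≤
      (N : ℝ) ^ 2 * gg (rr t c) (fun n => F n * aL φ n) 0 y p := by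
  have hu : (0 : ℝ) < uc t c := by exact_mod_cast uc_pos hD
  rw [deficit hD (F := fun _ => 1) _ hp, deficit hD _ hp]
  have h0 : (0 : ℝ) ≤ (p : ℝ) ^ (-(1 : ℝ)) := by positivity
  have h1 : ∑ z ∈ (ball t c (p : ℝ)).filter (fun z => nm z = p),
        (1 - ((1 : ℂ) * φ z ^ N * (p : ℂ) ^ (-(((N * y : ℝ) : ℂ) * Complex.I))).re) ≤
      (N : ℝ) ^ 2 * ∑ z ∈ (ball t c (p : ℝ)).filter (fun z => nm z = p),
        (1 - (F p * φ z * (p : ℂ) ^ (-(y * Complex.I))).re) := by
    rw [mul_sum]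
    refine sum_le_sum fun z hz => ?_
    have hzp := (mem_filter.1 hz).2
    have h2 : ‖F p * φ z * (p : ℂ) ^ (-(y * Complex.I))‖ = 1 := by
      rw [norm_mul, norm_mul, norm_u hp.pos, phi_one hM H (cop_of_prime hD hp hpM hzp),
        Complex.norm_eq_one_of_pow_eq_one (hF p) (by omega)]
      norm_num
    have h3 := pow_dist h2 N
    rw [mul_pow, mul_pow, hF p, ← Complex.cpow_nat_mul] at h3
    have h4 : ((N : ℕ) : ℂ) * -((y : ℂ) * Complex.I) = -(((N * y : ℝ) : ℂ) * Complex.I) := by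
      push_cast; ring
    rw [h4] at h3
    exact h3
  calc _ ≤ (p : ℝ) ^ (-(1 : ℝ)) * (((N : ℝ) ^ 2 *
      ∑ z ∈ (ball t c (p : ℝ)).filter (fun z => nm z = p),
        (1 - (F p * φ z * (p : ℂ) ^ (-(y * Complex.I))).re)) / uc t c) :=
        mul_le_mul_of_nonneg_left (div_le_div_of_nonneg_right h1 hu.le) h0
    _ = _ := by ring

/-- comparison of series over the primes outside a finite set -/
theorem summ_of_prime {g h : ℕ → ℝ} {M : ℕ} {K : ℝ} (hM : 1 ≤ M) (hg : ∀ n, 0 ≤ g n)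
    (hz : ∀ n, ¬ n.Prime → g n = 0)
    (hle : ∀ p : ℕ, p.Prime → ¬ p ∣ M → g p ≤ K * h p) (hh : Summable h) : Summable g := by
  have h1 : Summable (fun n => if n ∣ M then g n else 0) := by
    refine summable_of_hasFiniteSupport ((M.divisors.finite_toSet).subset ?_)
    intro n hn
    rw [Function.mem_support] at hn
    have : n ∣ M := by
      by_contra hc
      exact hn (if_neg hc)
    exact mem_coe.2 (Nat.mem_divisors.2 ⟨this, by omega⟩)
  have h2 : Summable (fun n => if n.Prime ∧ ¬ n ∣ M then g n else 0) := by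
    refine Summable.of_nonneg_of_le (fun n => ?_) (fun n => ?_) (hh.abs.mul_left |K|)
    · split_ifs
      · exact hg n
      · exact le_rfl
    · split_ifs with h3
      · refine (hle n h3.1 h3.2).trans ?_
        rw [← abs_mul]
        exact le_abs_self _
      · positivity
  refine (h1.add h2).congr fun n => ?_
  by_cases hp : n.Prime
  · by_cases hd : n ∣ M
    · rw [if_pos hd, if_neg (fun h => h.2 hd), add_zero]
    · rw [if_neg hd, if_pos ⟨hp, hd⟩, zero_add]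
  · simp [hz n hp, hp]

theorem gg_zero {r : ℕ → ℝ} {a : ℕ → ℂ} {δ y : ℝ} {n : ℕ} (hn : ¬ n.Prime) : gg r a δ y n = 0 := by
  unfold gg
  exact if_neg hn

/-- characters are not close to `n^{iy}`, unless they are trivial and `y = 0` -/
theorem char_far (hF : Fd t c f χ) {M : ℕ} (hM : 1 ≤ M) {φ : Qd t c → ℂ} (H : HCh M φ) (y : ℝ)
    (h : y ≠ 0 ∨ ∃ z, φ z ≠ 0 ∧ φ z ≠ 1) :
    ¬ Summable (gg (rr t c) (fun n => (1 : ℂ) * aL φ n) 0 y) := by
  have hD := Pool.Agent.W251.EG.hDG hF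
  obtain ⟨ρ, C, hρ, hr⟩ := rm_rr (t := t) (c := c) hD
  obtain ⟨L₁, h₁⟩ := hs_one hF
  obtain ⟨g, _, hLg, _⟩ := Pool.Agent.W251.EG.pntcG hF M φ hM H
  have h2 := hs_of hD hM H hLg (F := fun _ => 1) (by simp) (by simp)
  refine h2.not_close h₁ hr hρ y ?_
  have e1 : (fun n => (1 : ℂ) * aL φ n) = aL φ := by
    funext n
    rw [one_mul]
  rw [e1]
  obtain ⟨l1, l2⟩ := Pool.Agent.W251.EG.lconG hF M φ hM H
  by_cases htr : ∃ z, φ z ≠ 0 ∧ φ z ≠ 1
  · obtain ⟨G, hG1, hG2⟩ := l1 htr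
    refine lim_of_cont (g := G) hG1.continuous.continuousAt fun δ hδ => ?_
    exact ((hG2 _ (by rw [pt_re]; linarith)).2).symm
  · have hy : y ≠ 0 := by
      rcases h with h | h
      · exact h
      · exact absurd h htr
    push Not at htr
    obtain ⟨G, hG1, _, hG2⟩ := l2 htr
    refine lim_of_cont (g := fun s => G s / (s - 1)) ?_ fun δ hδ => ?_
    · refine ContinuousAt.div hG1.continuous.continuousAt (by fun_prop) ?_
      rw [add_sub_cancel_left]
      refine mul_ne_zero ?_ Complex.I_ne_zero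
      exact_mod_cast hy
    · have h3 := (hG2 (pt δ y) (by rw [pt_re]; linarith)).2
      have h4 : pt δ y - 1 ≠ 0 := by
        intro h5
        have h6 := congrArg Complex.re h5
        rw [Complex.sub_re, pt_re, Complex.one_re, Complex.zero_re] at h6
        linarith
      show LSeries (aL φ) (pt δ y) = G (pt δ y) / (pt δ y - 1)
      rw [h3, mul_div_cancel_left₀ _ h4]

/-- `F` is not close to a character with values in the `N`-th roots of unity -/
def Far (t c : ℤ) (N : ℕ) (F : ℕ → ℂ) : Prop := ∀ (M : ℕ) (φ : Qd t c → ℂ), 1 ≤ M → HCh M φ →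
  (∀ z, φ z ≠ 0 → φ z ^ N = 1) → ¬ Summable (gg (rr t c) (fun n => F n * aL φ n) 0 0)

theorem np_of (hF : Fd t c f χ) {N : ℕ} (hN : 1 ≤ N) {F : ℕ → ℂ} (hFp : ∀ n, F n ^ N = 1)
    (hfar : Far t c N F) {M : ℕ} (hM : 1 ≤ M) {φ : Qd t c → ℂ} (H : HCh M φ) :
    NP (rr t c) (fun n => F n * aL φ n) := by
  have hD := Pool.Agent.W251.EG.hDG hF
  intro y hsum
  have hFn : ∀ n, ‖F n‖ = 1 := fun n => Complex.norm_eq_one_of_pow_eq_one (hFp n) (by omega)
  have h1 : Summable (gg (rr t c) (fun n => (1 : ℂ) * aL (fun z => φ z ^ N) n) 0 (N * y)) := by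
    refine summ_of_prime hM (fun n => gg_nonneg (fun n => ?_) _ _ n) (fun n hn => gg_zero hn)
      (fun p hp hpM => gg_pow hD hM H hFp hN y hp hpM) hsum
    rw [norm_mul, norm_one, one_mul]
    exact aL_le hD (phi_le hM (hch_pow H hN)) n
  by_cases hc : N * y ≠ 0 ∨ ∃ z, φ z ^ N ≠ 0 ∧ φ z ^ N ≠ 1
  · exact char_far hF hM (hch_pow H hN) _ hc h1
  · push Not at hc
    have hy : y = 0 := by
      rcases mul_eq_zero.1 hc.1 with h2 | h2
      · exfalso
        have : N = 0 := by exact_mod_cast h2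
        omega
      · exact h2
    rw [hy] at hsum
    exact hfar M φ hM H (fun z hz => hc.2 z (pow_ne_zero _ hz)) hsum

/-- **Halasz's theorem over a quadratic order** -/
theorem cg_of (hF : Fd t c f χ) {N : ℕ} (hN : 1 ≤ N) {F : ℕ → ℂ}
    (hFm : ∀ x y : ℕ, x ≠ 0 → y ≠ 0 → F (x * y) = F x * F y) (hFp : ∀ n, F n ^ N = 1)
    (hfar : Far t c N F) : CG (fun z : Qd t c => F (nm z)) := by
  have hD := Pool.Agent.W251.EG.hDG hF
  have hFn : ∀ n, ‖F n‖ = 1 := fun n => Complex.norm_eq_one_of_pow_eq_one (hFp n) (by omega)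
  obtain ⟨ρ, C, hρ, hr⟩ := rm_rr (t := t) (c := c) hD
  obtain ⟨L₁, h₁⟩ := hs_one hF
  refine ⟨fun z w hz hw => ?_, fun z => hFn _, fun u z hu => ?_, fun M φ hM H ε hε => ?_⟩
  · beta_reduce
    rw [nm_mul]
    exact hFm _ _ (nm_pos hD hz).ne' (nm_pos hD hw).ne'
  · beta_reduce
    rw [nm_mul, hu, one_mul]
  · obtain ⟨g, _, hLg, _⟩ := Pool.Agent.W251.EG.pntcG hF M φ hM H
    have key := (hs_of hD hM H hLg hFn hFm).halasz h₁ hr (np_of hF hN hFp hfar hM H)
    have hup : (0 : ℝ) < uc t c := by exact_mod_cast uc_pos hD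
    have e1 := key.eventually (Metric.ball_mem_nhds 0
      (show (0 : ℝ) < ε / uc t c by positivity))
    obtain ⟨N₁, hN₁⟩ := Filter.eventually_atTop.1 e1
    refine ⟨(N₁ : ℝ) + 1, fun X hX => ?_⟩
    have hX1 : (1 : ℝ) ≤ X := by linarith [(Nat.cast_nonneg N₁ : (0 : ℝ) ≤ N₁)]
    have hfl : N₁ ≤ ⌊X⌋₊ := Nat.le_floor (by linarith)
    have hfl1 : 1 ≤ ⌊X⌋₊ := Nat.le_floor (by exact_mod_cast hX1)
    have hfl0 : (0 : ℝ) < (⌊X⌋₊ : ℝ) := by exact_mod_cast hfl1
    have h3 := hN₁ ⌊X⌋₊ hfl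
    rw [dist_zero_right, norm_div, Complex.norm_natCast, div_lt_iff₀ hfl0] at h3
    rw [sum_ball hD]
    have huc : (uc t c : ℂ) ≠ 0 := by
      have := (uc_pos hD).ne'
      exact_mod_cast this
    have e3 : ∀ k ∈ Icc 1 ⌊X⌋₊, ∑ z ∈ (ball t c (k : ℝ)).filter (fun z => nm z = k),
        F (nm z) * φ z = (uc t c : ℂ) * (F k * aL φ k) := by
      intro k _
      have : ∑ z ∈ (ball t c (k : ℝ)).filter (fun z => nm z = k), F (nm z) * φ z =
          F k * ∑ z ∈ (ball t c (k : ℝ)).filter (fun z => nm z = k), φ z := by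
        rw [Finset.mul_sum]
        refine Finset.sum_congr rfl fun z hz => ?_
        rw [mem_filter] at hz
        rw [hz.2]
      rw [this]
      unfold aL
      field_simp
    rw [Finset.sum_congr rfl e3, ← Finset.mul_sum, norm_mul, Complex.norm_natCast]
    have h7 : (uc t c : ℝ) * ‖∑ k ∈ Icc 1 ⌊X⌋₊, F k * aL φ k‖ ≤
        (uc t c : ℝ) * (ε / uc t c * (⌊X⌋₊ : ℝ)) := mul_le_mul_of_nonneg_left h3.le hup.le
    refine h7.trans ?_
    have h8 : (uc t c : ℝ) * (ε / uc t c * (⌊X⌋₊ : ℝ)) = ε * (⌊X⌋₊ : ℝ) := by field_simp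
    rw [h8]
    exact mul_le_mul_of_nonneg_left (Nat.floor_le (by linarith)) hε.le

/-- aperiodicity -/
theorem apd_of (hF : Fd t c f χ) {N : ℕ} (hN : 1 ≤ N) {F : ℕ → ℂ}
    (hFm : ∀ x y : ℕ, x ≠ 0 → y ≠ 0 → F (x * y) = F x * F y) (hFp : ∀ n, F n ^ N = 1)
    (hfar : Far t c N F) : Apd N (fun z : Qd t c => F (nm z)) := by
  have hD := Pool.Agent.W251.EG.hDG hF
  refine ⟨⟨hN, fun z w hz hw => ?_, fun z => hFp _⟩, fun M r₁ r₂ hM ε hε =>
    Pool.Agent.W738.EG.main hD (Pool.Agent.W290.EG.pid hF) (cg_of hF hN hFm hFp hfar) M r₁ r₂ hM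
      ε hε⟩
  beta_reduce
  rw [nm_mul]
  exact hFm _ _ (nm_pos hD hz).ne' (nm_pos hD hw).ne'

end Pool.Agent.N912.HL
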