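import Pool.Agent.N912.HL.H2

/-!
Project HL (helper912), part 3: the generating function of a sequence which is not close to
`r(n) n^{iy}` is `o(1/δ)` near the line `1` (compare `Pool.Agent.Y868.VR.H1`).
-/

set_option autoImplicit false

namespace Pool.Agent.N912.HL

open Finset Filter Topology
open Pool.Agent.Y122.LT (DS tw DS_eq al)
open scoped ArithmeticFunction.vonMangoldt

variable {r : ℕ → ℝ} {ρ C : ℝ} {a L L₁ : ℕ → ℂ}

/-- coefficients of the logarithm -/
noncomputable def lg (L : ℕ → ℂ) (n : ℕ) : ℂ := L n / (Real.log n : ℂ)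

theorem Hs.L1 (h : Hs r a L) : L 1 = 0 := by
  have h1 := h.Lle 1
  rw [ArithmeticFunction.vonMangoldt_apply_one, mul_zero] at h1
  exact norm_le_zero_iff.1 h1

theorem log_two_le {n : ℕ} (hn : 2 ≤ n) : 1 / 2 ≤ Real.log n := by
  have h1 := Real.log_two_gt_d9
  have h2 : Real.log 2 ≤ Real.log n := Real.log_le_log (by norm_num) (by exact_mod_cast hn)
  linarith

theorem Hs.lg_le (h : Hs r a L) (n : ℕ) : ‖lg L n‖ ≤ 4 * Λ n := by
  have h0 := ArithmeticFunction.vonMangoldt_nonneg (n := n)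
  unfold lg
  rcases Nat.lt_or_ge n 2 with hn | hn
  · have h1 : L n = 0 := by
      interval_cases n
      · exact h.L0
      · exact h.L1
    rw [h1, zero_div, norm_zero]
    positivity
  · have h2 := log_two_le hn
    rw [norm_div, Complex.norm_real, Real.norm_of_nonneg (by linarith),
      div_le_iff₀ (by linarith)]
    have h3 := h.Lle n
    nlinarith

theorem Hs.logMul_lg (h : Hs r a L) : LSeries.logMul (lg L) = L := by
  funext n
  unfold LSeries.logMul lg
  rcases Nat.lt_or_ge n 2 with hn | hn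
  · have h1 : L n = 0 := by
      interval_cases n
      · exact h.L0
      · exact h.L1
    rw [h1]; simp
  · have h2 := log_two_le hn
    have h3 : ((Real.log n : ℝ) : ℂ) ≠ 0 := by
      rw [Complex.ofReal_ne_zero]; linarith
    rw [← Complex.natCast_log, mul_div_cancel₀ _ h3]

theorem Hs.logMul_a (_ : Hs r a L) : LSeries.logMul a = al a := by
  funext n
  unfold LSeries.logMul al
  rw [← Complex.natCast_log, mul_comm]

theorem Hs.lgsumm (h : Hs r a L) {s : ℂ} (hs : 1 < s.re) : LSeriesSummable (lg L) s := by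
  have h1 := (ArithmeticFunction.LSeriesSummable_vonMangoldt hs).smul 4
  rw [LSeriesSummable, ← summable_norm_iff] at h1 ⊢
  refine h1.of_nonneg_of_le (fun n => norm_nonneg _) fun n => ?_
  refine LSeries.norm_term_le s ?_
  refine (h.lg_le n).trans (le_of_eq ?_)
  rw [Pi.smul_apply, norm_smul, Complex.norm_real,
    Real.norm_of_nonneg ArithmeticFunction.vonMangoldt_nonneg]
  simp

theorem abs_lt {F : ℕ → ℂ} (hF : ∀ s : ℂ, 1 < s.re → LSeriesSummable F s) {s : ℂ}
    (hs : 1 < s.re) : LSeries.abscissaOfAbsConv F < s.re := by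
  have h1 : LSeries.abscissaOfAbsConv F ≤ ((1 : ℝ) : EReal) :=
    LSeries.abscissaOfAbsConv_le_of_forall_lt_LSeriesSummable fun y hy => hF _ (by simpa using hy)
  exact h1.trans_lt (by exact_mod_cast hs)

/-- `A = c₁ exp B` -/
theorem Hs.expo (h : Hs r a L) (hr : Rm r ρ C) : ∃ c₁ : ℂ, ∀ s : ℂ, 1 < s.re →
    LSeries a s = c₁ * Complex.exp (LSeries (lg L) s) := by
  obtain ⟨U, hU⟩ : ∃ U : Set ℂ, U = {s : ℂ | 1 < s.re} := ⟨_, rfl⟩
  have hUo : IsOpen U := by rw [hU]; exact isOpen_lt continuous_const Complex.continuous_re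
  have hUc : IsPreconnected U := by
    rw [hU]; exact (convex_halfSpace_re_gt 1).isPreconnected
  have hd : ∀ s ∈ U, HasDerivAt (fun s => LSeries a s * Complex.exp (-LSeries (lg L) s)) 0 s := by
    intro s hs
    rw [hU] at hs
    have h1 := LSeries_hasDerivAt (abs_lt (fun s hs => h.summ hr hs) hs)
    have h2 := LSeries_hasDerivAt (abs_lt (fun s hs => h.lgsumm hs) hs)
    rw [h.logMul_a, (h.al_LSeries hr hs).2] at h1
    rw [h.logMul_lg] at h2
    have h3 := h1.mul (h2.neg.cexp)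
    refine h3.congr_deriv ?_
    ring
  refine ⟨LSeries a 2 * Complex.exp (-LSeries (lg L) 2), fun s hs => ?_⟩
  have h1 := hUo.is_const_of_deriv_eq_zero hUc
    (fun s hs => (hd s hs).differentiableAt.differentiableWithinAt)
    (fun s hs => (hd s hs).deriv) (x := s) (y := 2) (by rw [hU]; exact hs)
    (by rw [hU]; norm_num)
  rw [← h1, mul_assoc, ← Complex.exp_add, neg_add_cancel, Complex.exp_zero, mul_one]

/-- prime part -/
noncomputable def pr (F : ℕ → ℂ) (s : ℂ) (n : ℕ) : ℂ := if n.Prime then LSeries.term F s n else 0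

/-- the rest -/
noncomputable def npr (F : ℕ → ℂ) (s : ℂ) (n : ℕ) : ℂ := if n.Prime then 0 else LSeries.term F s n

theorem pr_summ {F : ℕ → ℂ} {s : ℂ} (h : LSeriesSummable F s) : Summable (pr F s) := by
  refine Summable.of_norm_bounded h.norm fun n => ?_
  unfold pr
  split_ifs
  · exact le_rfl
  · rw [norm_zero]; exact norm_nonneg _

theorem npr_summ {F : ℕ → ℂ} {s : ℂ} (h : LSeriesSummable F s) : Summable (npr F s) := by
  refine Summable.of_norm_bounded h.norm fun n => ?_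
  unfold npr
  split_ifs
  · rw [norm_zero]; exact norm_nonneg _
  · exact le_rfl

theorem pr_add {F : ℕ → ℂ} {s : ℂ} (h : LSeriesSummable F s) :
    LSeries F s = ∑' n, pr F s n + ∑' n, npr F s n := by
  rw [← (pr_summ h).tsum_add (npr_summ h), LSeries]
  refine tsum_congr fun n => ?_
  unfold pr npr
  split_ifs
  · rw [add_zero]
  · rw [zero_add]

theorem np_summ : Summable fun n : ℕ => (if n.Prime then 0 else Λ n) / (n : ℝ) := by
  have h := ArithmeticFunction.vonMangoldt.summable_residueClass_non_primes_div (q := 1) 1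
  refine h.congr fun n => ?_
  have : ArithmeticFunction.vonMangoldt.residueClass (q := 1) 1 n = Λ n := by
    unfold ArithmeticFunction.vonMangoldt.residueClass
    rw [Set.indicator_of_mem]
    exact Subsingleton.elim _ _
  rw [this]

/-- the contribution of the prime powers -/
noncomputable def K₁ : ℝ := ∑' n : ℕ, 4 * ((if n.Prime then 0 else Λ n) / (n : ℝ))

theorem Hs.npr_le (h : Hs r a L) {s : ℂ} (hs : 1 < s.re) : ‖∑' n, npr (lg L) s n‖ ≤ K₁ := by
  have h1 := npr_summ (h.lgsumm hs)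
  refine (norm_tsum_le_tsum_norm h1.norm).trans ?_
  refine h1.norm.tsum_le_tsum (fun n => ?_) (np_summ.mul_left 4)
  unfold npr
  split_ifs with hp
  · simp
  · rcases Nat.eq_zero_or_pos n with h0 | h0
    · subst h0; simp
    · have hn : (0 : ℝ) < n := by exact_mod_cast h0
      rw [LSeries.norm_term_eq, if_neg h0.ne', div_le_iff₀ (by positivity)]
      refine (h.lg_le n).trans ?_
      have h2 : (n : ℝ) ≤ (n : ℝ) ^ s.re := by
        have h3 : (n : ℝ) ^ (1 : ℝ) ≤ (n : ℝ) ^ s.re :=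
          Real.rpow_le_rpow_of_exponent_le (by exact_mod_cast h0) hs.le
        rwa [Real.rpow_one] at h3
      have h4 : 4 * (Λ n / (n : ℝ)) * (n : ℝ) = 4 * Λ n := by field_simp
      have h5 : 0 ≤ 4 * (Λ n / (n : ℝ)) := by
        have := ArithmeticFunction.vonMangoldt_nonneg (n := n)
        positivity
      rw [← h4]
      exact mul_le_mul_of_nonneg_left h2 h5

/-- at the primes -/
theorem Hs.lg_prime (h : Hs r a L) {p : ℕ} (hp : p.Prime) : lg L p = a p := by
  have h1 : al a p = a 1 * L p + a p * L 1 := by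
    rw [h.conv, LSeries.convolution_def]
    show ∑ x ∈ p.divisorsAntidiagonal, a x.1 * L x.2 = _
    rw [Nat.sum_divisorsAntidiagonal' (f := fun u v => a u * L v), hp.sum_divisors, Nat.div_self
      hp.pos, Nat.div_one]
  rw [h.one, h.L1, mul_zero, add_zero, one_mul] at h1
  unfold lg
  rw [← h1, al]
  have h2 := log_two_le hp.two_le
  have h3 : ((Real.log p : ℝ) : ℂ) ≠ 0 := by
    rw [Complex.ofReal_ne_zero]; linarith
  rw [mul_div_cancel_right₀ _ h3]

/-- the deficit -/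
noncomputable def gg (r : ℕ → ℝ) (a : ℕ → ℂ) (δ y : ℝ) (n : ℕ) : ℝ :=
  if n.Prime then (n : ℝ) ^ (-(1 + δ)) * (r n - (a n * (n : ℂ) ^ (-(y * Complex.I))).re) else 0

theorem norm_u {p : ℕ} (hp : 0 < p) (y : ℝ) : ‖(p : ℂ) ^ (-(y * Complex.I))‖ = 1 := by
  rw [Complex.norm_natCast_cpow_of_pos hp]
  simp

theorem gg_nonneg (ha : ∀ n, ‖a n‖ ≤ r n) (δ y : ℝ) (n : ℕ) : 0 ≤ gg r a δ y n := by
  unfold gg
  split_ifs with hp
  · have h1 := (Complex.re_le_norm (a n * (n : ℂ) ^ (-(y * Complex.I))))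
    rw [norm_mul, norm_u hp.pos, mul_one] at h1
    have h2 : (0 : ℝ) ≤ (n : ℝ) ^ (-(1 + δ)) := by positivity
    exact mul_nonneg h2 (by linarith [ha n])
  · exact le_rfl

theorem gg_cont (r : ℕ → ℝ) (a : ℕ → ℂ) (n : ℕ) :
    Continuous (fun x : ℝ × ℝ => gg r a x.1 x.2 n) := by
  unfold gg
  split_ifs with hp
  · have hp' : (n : ℝ) ≠ 0 := by exact_mod_cast hp.pos.ne'
    have hp'' : (n : ℂ) ≠ 0 := by exact_mod_cast hp.pos.ne'
    refine Continuous.mul ?_ ?_
    · exact Continuous.rpow continuous_const (by fun_prop) (fun x => Or.inl hp')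
    · refine continuous_const.sub (Complex.continuous_re.comp (continuous_const.mul ?_))
      refine Continuous.const_cpow (by fun_prop) (Or.inl hp'')
  · exact continuous_const

/-- the sequences which are not close to `r(n) n^{iy}` -/
def NP (r : ℕ → ℝ) (a : ℕ → ℂ) : Prop := ∀ y : ℝ, ¬ Summable (gg r a 0 y)

/-- the point `1 + δ + i y` -/
noncomputable def pt (δ y : ℝ) : ℂ := ((1 + δ : ℝ) : ℂ) + y * Complex.I

theorem pt_re (δ y : ℝ) : (pt δ y).re = 1 + δ := by simp [pt]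

theorem cpow_split {p : ℕ} (hp : 0 < p) (δ y : ℝ) :
    (p : ℂ) ^ (-(pt δ y)) = (((p : ℝ) ^ (-(1 + δ)) : ℝ) : ℂ) * (p : ℂ) ^ (-(y * Complex.I)) := by
  have hp' : (p : ℂ) ≠ 0 := by exact_mod_cast hp.ne'
  rw [pt, neg_add, Complex.cpow_add _ _ hp']
  congr 1
  rw [Complex.ofReal_cpow (Nat.cast_nonneg p)]
  push_cast
  rfl

theorem Hs.pr_eq (h : Hs r a L) (δ y : ℝ) (n : ℕ) : (pr (lg L) (pt δ y) n).re =
    if n.Prime then (n : ℝ) ^ (-(1 + δ)) * (a n * (n : ℂ) ^ (-(y * Complex.I))).re else 0 := by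
  unfold pr
  split_ifs with hp
  · rw [LSeries.term_of_ne_zero hp.pos.ne', h.lg_prime hp, div_eq_mul_inv, ← Complex.cpow_neg,
      cpow_split hp.pos]
    have : (a n) * ((((n : ℝ) ^ (-(1 + δ)) : ℝ) : ℂ) * (n : ℂ) ^ (-(y * Complex.I))) =
      (((n : ℝ) ^ (-(1 + δ)) : ℝ) : ℂ) * (a n * (n : ℂ) ^ (-(y * Complex.I))) := by ring
    rw [this, Complex.re_ofReal_mul]
  · rfl

theorem Hs.re_le (h : Hs r a L) (h₁ : Hs r (fun n => (r n : ℂ)) L₁) {δ : ℝ} (hδ : 0 < δ) (y : ℝ) :
    Summable (gg r a δ y) ∧ (LSeries (lg L) (pt δ y)).re ≤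
      (LSeries (lg L₁) (pt δ 0)).re + 2 * K₁ - ∑' n, gg r a δ y n := by
  have hs : ∀ y, 1 < (pt δ y).re := fun y => by rw [pt_re]; linarith
  have s1 := h.lgsumm (hs y)
  have s2 := h₁.lgsumm (hs 0)
  have p1 := pr_summ s1
  have p2 := pr_summ s2
  have e : ∀ n, gg r a δ y n = (pr (lg L₁) (pt δ 0) n).re - (pr (lg L) (pt δ y) n).re := by
    intro n
    rw [h.pr_eq, h₁.pr_eq, gg]
    split_ifs with hp
    · simp only [Complex.ofReal_zero, zero_mul, neg_zero, Complex.cpow_zero, mul_one,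
        Complex.ofReal_re]
      ring
    · ring
  have q1 : Summable (fun n => (pr (lg L) (pt δ y) n).re) :=
    (Complex.hasSum_re p1.hasSum).summable
  have q2 : Summable (fun n => (pr (lg L₁) (pt δ 0) n).re) :=
    (Complex.hasSum_re p2.hasSum).summable
  have hg : Summable (gg r a δ y) := by
    refine (q2.sub q1).congr fun n => ?_
    rw [e n]
  refine ⟨hg, ?_⟩
  have h3 : ∑' n, gg r a δ y n = (∑' n, pr (lg L₁) (pt δ 0) n).re -
      (∑' n, pr (lg L) (pt δ y) n).re := by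
    rw [Complex.re_tsum p1, Complex.re_tsum p2, ← q2.tsum_sub q1]
    exact tsum_congr e
  rw [pr_add s1, pr_add s2, Complex.add_re, Complex.add_re, h3]
  have h4 := (Complex.re_le_norm _).trans (h.npr_le (hs y))
  have h5 := (abs_le.1 ((Complex.abs_re_le_norm _).trans (h₁.npr_le (hs 0)))).1
  linarith

theorem Hs.hf_of (h : Hs r a L) (h₁ : Hs r (fun n => (r n : ℂ)) L₁) (hr : Rm r ρ C)
    (hn : NP r a) : HF a := by
  intro B η hη
  have hC := hr.C0
  obtain ⟨c₁, hc₁⟩ := h.expo hr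
  obtain ⟨c₂, hc₂⟩ := h₁.expo hr
  obtain ⟨θ₁, hθ₁, hup⟩ := hr.up
  have hc20 : 0 < ‖c₂‖ := by
    rw [norm_pos_iff]
    rintro rfl
    have h1 := hc₂ 2 (by norm_num)
    rw [zero_mul] at h1
    have h2 := hr.summ (s := 2) (by norm_num)
    have h3 : (0 : ℝ) < (LSeries (fun n => (r n : ℂ)) 2).re := by
      rw [LSeries, Complex.re_tsum h2]
      have h4 : ∀ n, 0 ≤ (LSeries.term (fun n => (r n : ℂ)) 2 n).re := by
        intro n
        rcases Nat.eq_zero_or_pos n with h0 | h0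
        · subst h0; simp
        · rw [LSeries.term_of_ne_zero h0.ne']
          have : ((r n : ℝ) : ℂ) / (n : ℂ) ^ (2 : ℂ) = ((r n / (n : ℝ) ^ 2 : ℝ) : ℂ) := by
            push_cast
            norm_num
          rw [this, Complex.ofReal_re]
          have := hr.nonneg n
          positivity
      refine (Complex.hasSum_re h2.hasSum).summable.tsum_pos h4 1 ?_
      rw [LSeries.term_of_ne_zero one_ne_zero, h₁.one]
      simp
    rw [h1] at h3
    simp at h3
  have hloc : ∀ y₀ ∈ Set.Icc (-B) B, ∀ᶠ z : ℝ × ℝ in 𝓝 ((0 : ℝ), y₀),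
      0 < z.1 → z.1 * ‖LSeries a (pt z.1 z.2)‖ ≤ η := by
    intro y₀ _
    have hns := hn y₀
    obtain ⟨D, hD⟩ : ∃ D : ℝ, D = (‖c₁‖ + 1) * (2 * C / ‖c₂‖) * Real.exp (2 * K₁) := ⟨_, rfl⟩
    have hD0 : 0 < D := by rw [hD]; positivity
    obtain ⟨M, hM⟩ : ∃ M : ℝ, D * Real.exp (-M) ≤ η := by
      refine ⟨-Real.log (η / D), ?_⟩
      rw [neg_neg, Real.exp_log (by positivity)]
      field_simp
      exact le_rfl
    obtain ⟨S, hS⟩ : ∃ S : Finset ℕ, M < ∑ p ∈ S, gg r a 0 y₀ p := by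
      by_contra hcon
      push Not at hcon
      exact hns (summable_of_sum_le (fun p => gg_nonneg h.le 0 y₀ p) hcon)
    have hc : Continuous (fun x : ℝ × ℝ => ∑ p ∈ S, gg r a x.1 x.2 p) :=
      continuous_finsetSum _ fun p _ => gg_cont r a p
    have h1 : ∀ᶠ z : ℝ × ℝ in 𝓝 ((0 : ℝ), y₀), M < ∑ p ∈ S, gg r a z.1 z.2 p :=
      (hc.tendsto ((0 : ℝ), y₀)).eventually (lt_mem_nhds hS)
    have h2 : ∀ᶠ z : ℝ × ℝ in 𝓝 ((0 : ℝ), y₀), z.1 < θ₁ :=
      (continuous_fst.tendsto ((0 : ℝ), y₀)).eventually (gt_mem_nhds hθ₁)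
    filter_upwards [h1, h2] with z h3 h4 hz
    have hs : ∀ y, 1 < (pt z.1 y).re := fun y => by rw [pt_re]; linarith
    obtain ⟨h7, h8⟩ := h.re_le h₁ hz z.2
    have h9 : M < ∑' n, gg r a z.1 z.2 n :=
      h3.trans_le (h7.sum_le_tsum S (fun p _ => gg_nonneg h.le z.1 z.2 p))
    have h10 : ‖LSeries a (pt z.1 z.2)‖ = ‖c₁‖ * Real.exp (LSeries (lg L) (pt z.1 z.2)).re := by
      rw [hc₁ _ (hs _), norm_mul, Complex.norm_exp]
    have h11 : z.1 * Real.exp (LSeries (lg L₁) (pt z.1 0)).re ≤ 2 * C / ‖c₂‖ := by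
      rw [le_div_iff₀ hc20]
      have h12 : Real.exp (LSeries (lg L₁) (pt z.1 0)).re * ‖c₂‖ =
          ‖LSeries (fun n => (r n : ℂ)) (pt z.1 0)‖ := by
        rw [hc₂ _ (hs _), norm_mul, Complex.norm_exp, mul_comm]
      rw [mul_assoc, h12]
      refine le_trans (mul_le_mul_of_nonneg_left ?_ hz.le) (hup z.1 hz h4)
      have h13 : pt z.1 0 = (((1 + z.1 : ℝ)) : ℂ) + ((0 : ℝ) : ℂ) * Complex.I := rfl
      have h14 := DS_eq (b := fun n => (r n : ℂ)) (by simp [hr.zero]) (1 + z.1) 0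
      rw [h13, ← h14]
      refine Pool.Agent.Y122.LT.DS_norm_le ?_ 0
      rw [Pool.Agent.Y122.LT.tw_summable (by simp [hr.zero])]
      refine hr.summ ?_
      simpa using hz
    rw [h10]
    calc z.1 * (‖c₁‖ * Real.exp (LSeries (lg L) (pt z.1 z.2)).re) ≤
        z.1 * (‖c₁‖ * Real.exp ((LSeries (lg L₁) (pt z.1 0)).re + 2 * K₁ - M)) := by
          refine mul_le_mul_of_nonneg_left (mul_le_mul_of_nonneg_left
            (Real.exp_le_exp.2 ?_) (norm_nonneg _)) hz.le
          linarith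
      _ = ‖c₁‖ * (z.1 * Real.exp (LSeries (lg L₁) (pt z.1 0)).re) * Real.exp (2 * K₁) *
          Real.exp (-M) := by
          rw [sub_eq_add_neg, Real.exp_add, Real.exp_add]; ring
      _ ≤ (‖c₁‖ + 1) * (2 * C / ‖c₂‖) * Real.exp (2 * K₁) * Real.exp (-M) := by
          refine mul_le_mul_of_nonneg_right (mul_le_mul_of_nonneg_right ?_ (Real.exp_pos _).le)
            (Real.exp_pos _).le
          exact mul_le_mul (by linarith) h11 (by positivity) (by positivity)
      _ ≤ η := by rw [← hD]; exact hM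
  have hev : ∀ᶠ δ : ℝ in 𝓝 0, ∀ y ∈ Set.Icc (-B) B, 0 < δ → δ * ‖LSeries a (pt δ y)‖ ≤ η :=
    IsCompact.eventually_forall_of_forall_eventually (x₀ := (0 : ℝ)) (K := Set.Icc (-B) B)
      (P := fun δ y : ℝ => 0 < δ → δ * ‖LSeries a (pt δ y)‖ ≤ η) isCompact_Icc hloc
  obtain ⟨R, hR, hball⟩ := Metric.eventually_nhds_iff.1 hev
  refine ⟨min R 1, lt_min hR one_pos, min_le_right _ _, ?_⟩
  intro δ hδ0 hδ y hy
  have h1 : dist δ 0 < R := by
    rw [Real.dist_eq, sub_zero, abs_of_pos hδ0]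
    exact hδ.trans_le (min_le_left _ _)
  rw [DS_eq h.zero]
  exact hball h1 y (abs_le.1 hy) hδ0

/-- **Halasz's theorem** in this setting -/
theorem Hs.halasz (h : Hs r a L) (h₁ : Hs r (fun n => (r n : ℂ)) L₁) (hr : Rm r ρ C)
    (hn : NP r a) : Tendsto (fun N : ℕ => (∑ n ∈ Icc 1 N, a n) / (N : ℂ)) atTop (𝓝 0) :=
  h.mean0 hr (h.hf_of h₁ hr hn)

end Pool.Agent.N912.HL
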