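import Pool.Agent.N912.HL.H3

/-!
Project HL (helper912), part 4: a sequence which is close to `r(n) n^{iy}` has a generating function
with a pole at `1 + iy`.
-/

set_option autoImplicit false

namespace Pool.Agent.N912.HL

open Finset Filter Topology
open Pool.Agent.Y122.LT (DS tw DS_eq al)
open scoped ArithmeticFunction.vonMangoldt

variable {r : ℕ → ℝ} {ρ C : ℝ} {a L L₁ : ℕ → ℂ}

/-- `A = c₁ exp B`, `c₁ ≠ 0` -/
theorem Hs.expo' (h : Hs r a L) (hr : Rm r ρ C) : ∃ c₁ : ℂ, c₁ ≠ 0 ∧ ∀ s : ℂ, 1 < s.re →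
    LSeries a s = c₁ * Complex.exp (LSeries (lg L) s) := by
  obtain ⟨c₁, h1⟩ := h.expo hr
  refine ⟨c₁, ?_, h1⟩
  rintro rfl
  have h2 : LSeries.abscissaOfAbsConv a < ⊤ := by
    have h3 := abs_lt (F := a) (fun s hs => h.summ hr hs) (s := 2) (by norm_num)
    exact h3.trans (EReal.coe_lt_top _)
  have h3 := LSeries.tendsto_atTop h2
  rw [h.one] at h3
  have h4 : Tendsto (fun x : ℝ => LSeries a x) atTop (𝓝 0) := by
    refine tendsto_const_nhds.congr' ?_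
    filter_upwards [eventually_gt_atTop 1] with x hx
    rw [h1 x (by simpa using hx), zero_mul]
  exact one_ne_zero (tendsto_nhds_unique h3 h4)

theorem gg_mono (ha : ∀ n, ‖a n‖ ≤ r n) {δ : ℝ} (hδ : 0 ≤ δ) (y : ℝ) (n : ℕ) :
    gg r a δ y n ≤ gg r a 0 y n := by
  unfold gg
  split_ifs with hp
  · have h1 := (Complex.re_le_norm (a n * (n : ℂ) ^ (-(y * Complex.I))))
    rw [norm_mul, norm_u hp.pos, mul_one] at h1
    refine mul_le_mul_of_nonneg_right ?_ (by linarith [ha n])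
    exact Real.rpow_le_rpow_of_exponent_le (by exact_mod_cast hp.pos) (by linarith)
  · exact le_rfl

theorem Rm.low (hr : Rm r ρ C) (hρ : 0 < ρ) : ∀ᶠ δ : ℝ in 𝓝[>] 0,
    ρ / 2 ≤ δ * ‖LSeries (fun n => (r n : ℂ)) (pt δ 0)‖ := by
  have h1 := LSeries_tendsto_sub_mul_nhds_one_of_tendsto_sum_div_and_nonneg r hr.tend hr.nonneg
  have h2 := h1.norm
  have h3 : ‖((ρ : ℝ) : ℂ)‖ = ρ := by rw [Complex.norm_real, Real.norm_of_nonneg hρ.le]
  rw [h3] at h2
  have h4 := h2.eventually_const_le (show ρ / 2 < ρ by linarith)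
  have h5 : Tendsto (fun δ : ℝ => 1 + δ) (𝓝[>] 0) (𝓝[>] 1) := by
    refine tendsto_nhdsWithin_iff.2 ⟨?_, ?_⟩
    · have : Tendsto (fun δ : ℝ => 1 + δ) (𝓝 0) (𝓝 (1 + 0)) := (tendsto_id).const_add 1
      rw [add_zero] at this
      exact this.mono_left nhdsWithin_le_nhds
    · filter_upwards [self_mem_nhdsWithin] with δ hδ
      show 1 < 1 + δ
      have : 0 < δ := hδ
      linarith
  filter_upwards [h5.eventually h4, self_mem_nhdsWithin] with δ h6 hδ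
  have hδ' : 0 < δ := hδ
  rw [norm_mul] at h6
  have h7 : ‖(((1 + δ : ℝ) : ℂ)) - 1‖ = δ := by
    have : ((1 + δ : ℝ) : ℂ) - 1 = ((δ : ℝ) : ℂ) := by push_cast; ring
    rw [this, Complex.norm_real, Real.norm_of_nonneg hδ'.le]
  rw [h7] at h6
  have h8 : pt δ 0 = ((1 + δ : ℝ) : ℂ) := by simp [pt]
  rw [h8]
  exact h6

/-- no pole: the sequence is not close to `r(n) n^{iy}` -/
theorem Hs.not_close (h : Hs r a L) (h₁ : Hs r (fun n => (r n : ℂ)) L₁) (hr : Rm r ρ C)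
    (hρ : 0 < ρ) (y : ℝ)
    (hlim : Tendsto (fun δ : ℝ => δ * ‖LSeries a (pt δ y)‖) (𝓝[>] 0) (𝓝 0)) :
    ¬ Summable (gg r a 0 y) := by
  intro hsum
  obtain ⟨c₁, hc1, hc₁⟩ := h.expo' hr
  obtain ⟨c₂, hc2, hc₂⟩ := h₁.expo' hr
  have hc1' : 0 < ‖c₁‖ := norm_pos_iff.2 hc1
  have hc2' : 0 < ‖c₂‖ := norm_pos_iff.2 hc2
  obtain ⟨D, hD⟩ : ∃ D : ℝ, D = ‖c₁‖ / ‖c₂‖ * (ρ / 2) *
      Real.exp (-(2 * K₁ + ∑' n, gg r a 0 y n)) := ⟨_, rfl⟩
  have hD0 : 0 < D := by rw [hD]; positivity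
  have h5 := hlim.eventually (gt_mem_nhds hD0)
  obtain ⟨δ, h6, h7, h8⟩ := (h5.and ((hr.low hρ).and self_mem_nhdsWithin)).exists
  have hδ : 0 < δ := h8
  have hs : ∀ y, 1 < (pt δ y).re := fun y => by rw [pt_re]; linarith
  have s1 := h.lgsumm (hs y)
  have s2 := h₁.lgsumm (hs 0)
  have p1 := pr_summ s1
  have p2 := pr_summ s2
  have e : ∀ n, gg r a δ y n = (pr (lg L₁) (pt δ 0) n).re - (pr (lg L) (pt δ y) n).re := by
    intro n
    rw [h.pr_eq, h₁.pr_eq, gg]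
    split_ifs with hp
    · simp only [Complex.ofReal_zero, zero_mul, neg_zero, Complex.cpow_zero, mul_one,
        Complex.ofReal_re]
      ring
    · ring
  have q1 : Summable (fun n => (pr (lg L) (pt δ y) n).re) :=
    (Complex.hasSum_re p1.hasSum).summable
  have q2 : Summable (fun n => (pr (lg L₁) (pt δ 0) n).re) :=
    (Complex.hasSum_re p2.hasSum).summable
  have hg : Summable (gg r a δ y) := by
    refine (q2.sub q1).congr fun n => ?_
    rw [e n]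
  have h3 : ∑' n, gg r a δ y n = (∑' n, pr (lg L₁) (pt δ 0) n).re -
      (∑' n, pr (lg L) (pt δ y) n).re := by
    rw [Complex.re_tsum p1, Complex.re_tsum p2, ← q2.tsum_sub q1]
    exact tsum_congr e
  have h9 : ∑' n, gg r a δ y n ≤ ∑' n, gg r a 0 y n :=
    hg.tsum_le_tsum (fun n => gg_mono h.le hδ.le y n) hsum
  have h10 : (LSeries (lg L₁) (pt δ 0)).re - (2 * K₁ + ∑' n, gg r a 0 y n) ≤
      (LSeries (lg L) (pt δ y)).re := by
    rw [pr_add s1, pr_add s2, Complex.add_re, Complex.add_re]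
    have h4 := (abs_le.1 ((Complex.abs_re_le_norm _).trans (h.npr_le (hs y)))).1
    have h5 := (Complex.re_le_norm _).trans (h₁.npr_le (hs 0))
    linarith
  have h11 : D ≤ δ * ‖LSeries a (pt δ y)‖ := by
    rw [hc₁ _ (hs y), norm_mul, Complex.norm_exp, hD]
    rw [hc₂ _ (hs 0), norm_mul, Complex.norm_exp] at h7
    have h12 := Real.exp_le_exp.2 h10
    rw [sub_eq_add_neg, Real.exp_add] at h12
    calc ‖c₁‖ / ‖c₂‖ * (ρ / 2) * Real.exp (-(2 * K₁ + ∑' n, gg r a 0 y n)) ≤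
        ‖c₁‖ / ‖c₂‖ * (δ * (‖c₂‖ * Real.exp (LSeries (lg L₁) (pt δ 0)).re)) *
          Real.exp (-(2 * K₁ + ∑' n, gg r a 0 y n)) := by
          refine mul_le_mul_of_nonneg_right (mul_le_mul_of_nonneg_left h7 (by positivity))
            (Real.exp_pos _).le
      _ = δ * (‖c₁‖ * (Real.exp (LSeries (lg L₁) (pt δ 0)).re *
          Real.exp (-(2 * K₁ + ∑' n, gg r a 0 y n)))) := by
          field_simp
      _ ≤ _ := by
          refine mul_le_mul_of_nonneg_left (mul_le_mul_of_nonneg_left h12 hc1'.le) hδ.le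
  linarith

/-- a continuous extension to the point `1 + iy` excludes closeness -/
theorem lim_of_cont {g : ℂ → ℂ} {A : ℂ → ℂ} {y : ℝ} (hg : ContinuousAt g (1 + y * Complex.I))
    (h : ∀ δ : ℝ, 0 < δ → A (pt δ y) = g (pt δ y)) :
    Tendsto (fun δ : ℝ => δ * ‖A (pt δ y)‖) (𝓝[>] 0) (𝓝 0) := by
  have h1 : Tendsto (fun δ : ℝ => pt δ y) (𝓝[>] 0) (𝓝 (1 + y * Complex.I)) := by
    have h2 : Continuous (fun δ : ℝ => pt δ y) := by unfold pt; fun_prop
    have h3 := h2.tendsto 0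
    have h4 : pt 0 y = 1 + y * Complex.I := by simp [pt]
    rw [h4] at h3
    exact h3.mono_left nhdsWithin_le_nhds
  have h2 : Tendsto (fun δ : ℝ => ‖g (pt δ y)‖) (𝓝[>] 0) (𝓝 ‖g (1 + y * Complex.I)‖) :=
    (hg.tendsto.comp h1).norm
  have h3 : Tendsto (fun δ : ℝ => δ) (𝓝[>] 0) (𝓝 0) := tendsto_id.mono_left nhdsWithin_le_nhds
  have h4 := h3.mul h2
  rw [zero_mul] at h4
  refine h4.congr' ?_
  filter_upwards [self_mem_nhdsWithin] with δ hδ
  rw [h δ hδ]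

end Pool.Agent.N912.HL
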