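import Pool.Agent.N912.HL.H7
import Pool.Agent.N912.PM.Fin

/-!
Project HL (helper912), part 8: arbitrary completely additive functions with values in a finite abelian
group, at the factors of `n^2+1`.
-/

set_option autoImplicit false

namespace Pool.Agent.N912.HL

open Finset Filter
open Pool.Agent.W78.GA (Qd nm)
open Pool.Agent.W78.EG
open Pool.Agent.W251.EG
open Pool.Agent.V11296.CV (chpow chnrm cv)
open Pool.Agent.V11296.CW (cw)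
open Pool.Agent.N912.PM (Gg Adp Adq)

variable {A : Type} [AddCommGroup A]

open scoped Classical in
/-- far from the Dirichlet characters on the primes `1 mod 4` -/
def FarD (F : ℕ → ℂ) : Prop := ∀ M : ℕ, 1 ≤ M → ∀ χ : DirichletCharacter ℂ M,
  ¬ Summable (fun p : ℕ => if p.Prime ∧ p % 4 = 1 ∧ F p ≠ χ (p : ZMod M) then 1 / (p : ℝ) else 0)

theorem apd_far [Finite A] {f : ℕ} {χ : DirichletCharacter ℂ f}
    (hF : Fd (((0 : ℕ) : ℤ)) (((1 : ℕ) : ℤ)) f χ) {H : ℕ → A}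
    (hH : ∀ x y : ℕ, x ≠ 0 → y ≠ 0 → H (x * y) = H x + H y) (ψ : AddChar A ℂ)
    (h : FarD (fun n => ψ (H n))) :
    Apd (Nat.card A) (fun z : Qd (((0 : ℕ) : ℤ)) (((1 : ℕ) : ℤ)) => ψ (H (nm z))) := by
  have hN : 1 ≤ Nat.card A := Nat.card_pos
  have hp : ∀ n, (fun n => ψ (H n)) n ^ Nat.card A = 1 := fun n => chpow ψ _
  have h1 : Far 0 1 (Nat.card A) (fun n => ψ (H n)) := by
    refine far_of hN hp fun M hM χ' => ?_
    have := h M hM χ'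
    convert this
  have h2 : Far (((0 : ℕ) : ℤ)) (((1 : ℕ) : ℤ)) (Nat.card A) (fun n => ψ (H n)) := by
    exact_mod_cast h1
  exact apd_of hF hN (fun x y hx hy => by
    beta_reduce
    rw [hH x y hx hy, AddChar.map_add_eq_mul]) hp h2

theorem gg_far [Finite A] {f : ℕ} {χ : DirichletCharacter ℂ f}
    (hF : Fd (((0 : ℕ) : ℤ)) (((1 : ℕ) : ℤ)) f χ) {m : ℕ} (hm : 1 ≤ m) {τ : A} {H₁ H₂ : ℕ → A}
    (h₁ : ∀ x y : ℕ, x ≠ 0 → y ≠ 0 → H₁ (x * y) = H₁ x + H₁ y)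
    (h₂ : ∀ x y : ℕ, x ≠ 0 → y ≠ 0 → H₂ (x * y) = H₂ x + H₂ y)
    (hτ : ∀ p : ℕ, p.Prime → p ≡ 1 [MOD m] → H₁ p + H₂ p = τ)
    (hfar : ∀ ψ : AddChar A ℂ, ψ ≠ 1 → FarD (fun n => ψ (H₁ n)) ∨ FarD (fun n => ψ (H₂ n))) :
    Gg 0 1 χ m τ ⊤ H₁ H₂ where
  mod := hm
  add₁ := h₁
  add₂ := h₂
  two := fun p hp _ h1 => hτ p hp h1
  apd := by
    rintro ψ ⟨d, _, hd⟩
    have hψ : ψ ≠ 1 := by
      rintro rfl
      exact hd rfl
    rcases hfar ψ hψ with h | h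
    · exact Or.inl (apd_far hF h₁ ψ h)
    · exact Or.inr (apd_far hF h₂ ψ h)

theorem adp_top (q a r : ℕ) (H₁ H₂ : ℕ → A) (g : A) :
    Adp 0 1 q a r (⊤ : AddSubgroup A) H₁ H₂ g := fun _ _ _ _ _ _ => trivial

theorem adq_top (q a : ℕ) (H₁ H₂ : ℕ → A) (g : A) :
    Adq 0 1 q a (⊤ : AddSubgroup A) H₁ H₂ g := fun _ _ _ _ _ => trivial

end Pool.Agent.N912.HL
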