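import Pool.Agent.Y122.LT.MeanSq

/-!
Project HL (helper912), part 1: Halasz's method for sequences `a` with `a log = a * L`,
`|L| ≤ 2 Λ`, `|a| ≤ r`, where `r` has a mean value (compare `Pool.Agent.Y122.LT.MeanSq`, `LowC`).
-/

set_option autoImplicit false

namespace Pool.Agent.N912.HL

open Finset Filter MeasureTheory
open Pool.Agent.Y122.LT (K K_nonneg DS DS_norm_le DS_int S time planch planch_le exp_tail tw DS_eq
  tw_norm tw_summable al CC CC_pos S_neg S_psi Lam_norm_summable)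
open scoped ArithmeticFunction.vonMangoldt

/-- the majorant -/
structure Rm (r : ℕ → ℝ) (ρ C : ℝ) : Prop where
  nonneg : ∀ n, 0 ≤ r n
  zero : r 0 = 0
  C1 : 1 ≤ C
  ρC : |ρ| ≤ C
  cnt : ∀ N : ℕ, |∑ n ∈ Icc 1 N, r n - ρ * N| ≤ C * Real.sqrt N

/-- the sequences -/
structure Hs (r : ℕ → ℝ) (a L : ℕ → ℂ) : Prop where
  zero : a 0 = 0
  one : a 1 = 1
  le : ∀ n, ‖a n‖ ≤ r n
  Lle : ∀ n, ‖L n‖ ≤ 2 * Λ n
  conv : al a = LSeries.convolution a L

variable {r : ℕ → ℝ} {ρ C : ℝ} {a L : ℕ → ℂ}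

theorem Rm.C0 (hr : Rm r ρ C) : 0 < C := lt_of_lt_of_le one_pos hr.C1

theorem Rm.bd (hr : Rm r ρ C) (N : ℕ) : ∑ n ∈ Icc 1 N, r n ≤ 2 * C * N := by
  have h1 := (abs_le.1 (hr.cnt N)).2
  have h2 : ρ * N ≤ C * N := mul_le_mul_of_nonneg_right ((le_abs_self _).trans hr.ρC)
    (Nat.cast_nonneg _)
  have h3 : Real.sqrt N ≤ N := by
    rcases Nat.eq_zero_or_pos N with h | h
    · subst h; simp
    · have h4 : (1 : ℝ) ≤ N := by exact_mod_cast h
      rw [Real.sqrt_le_left (by linarith)]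
      nlinarith
  have h4 : C * Real.sqrt N ≤ C * N := mul_le_mul_of_nonneg_left h3 hr.C0.le
  linarith

theorem Rm.bdexp (hr : Rm r ρ C) (t : ℝ) :
    ∑ n ∈ Icc 1 ⌊Real.exp t⌋₊, r n ≤ 2 * C * Real.exp t := by
  refine (hr.bd _).trans ?_
  exact mul_le_mul_of_nonneg_left (Nat.floor_le (Real.exp_pos t).le) (by have := hr.C0; positivity)

theorem Rm.summ (hr : Rm r ρ C) {s : ℂ} (hs : 1 < s.re) : LSeriesSummable (fun n => (r n : ℂ)) s := by
  refine LSeriesSummable_of_sum_norm_bigO_and_nonneg (r := 1) ?_ hr.nonneg zero_le_one hs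
  refine Asymptotics.IsBigO.of_bound (2 * C) (Eventually.of_forall fun n => ?_)
  rw [Real.rpow_one, Real.norm_of_nonneg (sum_nonneg fun k _ => hr.nonneg k),
    Real.norm_of_nonneg (Nat.cast_nonneg _)]
  exact hr.bd n

theorem Rm.tend (hr : Rm r ρ C) :
    Tendsto (fun n : ℕ => (∑ k ∈ Icc 1 n, r k) / (n : ℝ)) atTop (nhds ρ) := by
  have h1 : Tendsto (fun n : ℕ => C / Real.sqrt n) atTop (nhds 0) :=
    Tendsto.const_div_atTop (Real.tendsto_sqrt_atTop.comp tendsto_natCast_atTop_atTop) C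
  rw [tendsto_iff_norm_sub_tendsto_zero]
  refine squeeze_zero' (Eventually.of_forall fun _ => norm_nonneg _) ?_ h1
  filter_upwards [eventually_gt_atTop 0] with n hn
  have hn' : (0 : ℝ) < n := by exact_mod_cast hn
  have h2 : (∑ k ∈ Icc 1 n, r k) / (n : ℝ) - ρ = (∑ k ∈ Icc 1 n, r k - ρ * n) / n := by
    field_simp
  rw [h2, Real.norm_eq_abs, abs_div, abs_of_pos hn', div_le_div_iff₀ hn' (Real.sqrt_pos.2 hn')]
  have h3 := mul_le_mul_of_nonneg_right (hr.cnt n) (Real.sqrt_nonneg n)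
  have h4 : C * Real.sqrt n * Real.sqrt n = C * n := by
    rw [mul_assoc, Real.mul_self_sqrt hn'.le]
  linarith

theorem Hs.summ (h : Hs r a L) (hr : Rm r ρ C) {s : ℂ} (hs : 1 < s.re) : LSeriesSummable a s := by
  have h1 := hr.summ hs
  rw [LSeriesSummable, ← summable_norm_iff] at h1 ⊢
  refine h1.of_nonneg_of_le (fun n => norm_nonneg _) fun n => ?_
  refine LSeries.norm_term_le s ?_
  rw [Complex.norm_real, Real.norm_of_nonneg (hr.nonneg n)]
  exact h.le n

theorem Hs.Lsumm (h : Hs r a L) {s : ℂ} (hs : 1 < s.re) : LSeriesSummable L s := by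
  have h1 := (ArithmeticFunction.LSeriesSummable_vonMangoldt hs).smul 2
  rw [LSeriesSummable, ← summable_norm_iff] at h1 ⊢
  refine h1.of_nonneg_of_le (fun n => norm_nonneg _) fun n => ?_
  refine LSeries.norm_term_le s ?_
  refine (h.Lle n).trans (le_of_eq ?_)
  rw [Pi.smul_apply, norm_smul, Complex.norm_real,
    Real.norm_of_nonneg ArithmeticFunction.vonMangoldt_nonneg]
  simp

theorem Hs.L0 (h : Hs r a L) : L 0 = 0 := by
  have h1 := h.Lle 0
  simpa using h1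

theorem Hs.al_LSeries (h : Hs r a L) (hr : Rm r ρ C) {s : ℂ} (hs : 1 < s.re) :
    LSeriesSummable (al a) s ∧ LSeries (al a) s = LSeries a s * LSeries L s := by
  have h1 := h.summ hr hs
  have h2 := h.Lsumm hs
  rw [h.conv]
  exact ⟨h1.convolution h2, LSeries_convolution' h1 h2⟩

/-- mean square of the logarithmic derivative -/
theorem Hs.D_sq (h : Hs r a L) {θ B : ℝ} (hθ : 0 < θ) (hθ1 : θ ≤ 1) (hB : 2 ≤ B) :
    (∫ y, ‖DS (tw L (1 + θ)) y‖ ^ 2 * K (1 + θ) y ≤ 8 * Real.pi * CC ^ 2 / θ) ∧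
    (∫ y, ‖DS (tw L (1 + θ)) y‖ ^ 2 * K B y ≤ 8 * Real.pi * CC ^ 2 / θ) := by
  have hσ : 0 < 1 + θ := by linarith
  have hs := (Lam_norm_summable (σ := 1 + θ) (by linarith)).mul_left 2
  have hs' : Summable fun n : ℕ => (2 * Λ n) * Real.exp (-((1 + θ) * Real.log n)) := by
    refine hs.congr fun n => by ring
  have hlog0 : (2 * (Λ 0 : ℝ)) = 0 := by simp
  have e0 : ∀ t : ℝ, ‖S (fun n => ((2 * Λ n : ℝ) : ℂ)) t‖ = 2 * ‖S (fun n => (Λ n : ℂ)) t‖ := by
    intro t
    have : S (fun n => ((2 * Λ n : ℝ) : ℂ)) t = 2 * S (fun n => (Λ n : ℂ)) t := by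
      unfold S
      rw [mul_sum]
      refine sum_congr rfl fun n _ => by push_cast; ring
    rw [this, norm_mul]; simp
  have hR : ∫ t, ‖S (fun n => ((2 * Λ n : ℝ) : ℂ)) t‖ ^ 2 * Real.exp (-(2 * (1 + θ) * t)) ≤
      4 * CC ^ 2 / (2 * θ) := by
    obtain ⟨i1, i2⟩ := exp_tail hθ 0
    have h0 : ∀ n : ℕ, ‖((2 * Λ n : ℝ) : ℂ) * (Real.exp (-((1 + θ) * Real.log n)) : ℂ)‖ =
        (2 * Λ n) * Real.exp (-((1 + θ) * Real.log n)) := by
      intro n
      rw [norm_mul, Complex.norm_real, Complex.norm_real, Real.norm_of_nonneg (Real.exp_pos _).le,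
        Real.norm_of_nonneg (mul_nonneg (by norm_num) ArithmeticFunction.vonMangoldt_nonneg)]
    have i3 := (time (b := fun n => ((2 * Λ n : ℝ) : ℂ)) (by simp) hσ
      (by simpa only [h0] using hs')).1
    calc _ ≤ ∫ t : ℝ, 4 * CC ^ 2 * (if 0 ≤ t then Real.exp (-(2 * θ * t)) else 0) := by
          refine integral_mono i3 (i1.const_mul _) fun t => ?_
          simp only
          split_ifs with ht
          · rw [e0]
            have h1 := pow_le_pow_left₀ (norm_nonneg _) (S_psi t) 2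
            calc _ = 4 * (‖S (fun n => (Λ n : ℂ)) t‖ ^ 2 * Real.exp (-(2 * (1 + θ) * t))) := by
                  ring
              _ ≤ 4 * ((CC * Real.exp t) ^ 2 * Real.exp (-(2 * (1 + θ) * t))) :=
                  mul_le_mul_of_nonneg_left (mul_le_mul_of_nonneg_right h1 (Real.exp_pos _).le)
                    (by norm_num)
              _ = 4 * CC ^ 2 * (Real.exp t * Real.exp t * Real.exp (-(2 * (1 + θ) * t))) := by ring
              _ = _ := by
                  rw [← Real.exp_add, ← Real.exp_add]; congr 2; ring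
          · rw [S_neg _ (by linarith)]; simp
      _ = _ := by rw [integral_const_mul, i2]; simp; ring
  have hfin : 2 * Real.pi * (1 + θ) * ∫ t, ‖S (fun n => ((2 * Λ n : ℝ) : ℂ)) t‖ ^ 2 *
      Real.exp (-(2 * (1 + θ) * t)) ≤ 8 * Real.pi * CC ^ 2 / θ := by
    have hp := Real.pi_pos
    calc _ ≤ 2 * Real.pi * (1 + θ) * (4 * CC ^ 2 / (2 * θ)) :=
          mul_le_mul_of_nonneg_left hR (by positivity)
      _ = (1 + θ) / 2 * (8 * Real.pi * CC ^ 2 / θ) := by field_simp; ring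
      _ ≤ 1 * (8 * Real.pi * CC ^ 2 / θ) :=
          mul_le_mul_of_nonneg_right (by linarith) (by positivity)
      _ = _ := one_mul _
  exact ⟨(planch_le (β := fun n => 2 * Λ n) hlog0 h.Lle hσ le_rfl hs').trans hfin,
    (planch_le (β := fun n => 2 * Λ n) hlog0 h.Lle hσ (by linarith) hs').trans hfin⟩

/-- the hypothesis -/
def HF (a : ℕ → ℂ) : Prop := ∀ B η : ℝ, 0 < η → ∃ θ₀ : ℝ, 0 < θ₀ ∧ θ₀ ≤ 1 ∧
  ∀ θ : ℝ, 0 < θ → θ < θ₀ → ∀ y : ℝ, |y| ≤ B → θ * ‖DS (tw a (1 + θ)) y‖ ≤ η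

theorem Rm.up (hr : Rm r ρ C) : ∃ θ₁ : ℝ, 0 < θ₁ ∧
    ∀ θ : ℝ, 0 < θ → θ < θ₁ → θ * ∑' n, ‖tw (fun n => (r n : ℂ)) (1 + θ) n‖ ≤ 2 * C := by
  have h1 := LSeries_tendsto_sub_mul_nhds_one_of_tendsto_sum_div_and_nonneg r hr.tend hr.nonneg
  have h2 := (Complex.continuous_re.tendsto _).comp h1
  have h3 : ∀ᶠ s : ℝ in nhdsWithin 1 (Set.Ioi 1),
      (((s : ℂ) - 1) * LSeries (fun n => (r n : ℂ)) s).re < 2 * C := by
    refine h2.eventually_lt_const ?_
    have h4 : ((ρ : ℝ) : ℂ).re = ρ := Complex.ofReal_re ρ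
    rw [h4]
    have := (le_abs_self ρ).trans hr.ρC
    have := hr.C0
    linarith
  rw [eventually_nhdsWithin_iff, Metric.eventually_nhds_iff] at h3
  obtain ⟨ε, hε, h3⟩ := h3
  refine ⟨ε, hε, fun θ hθ hθε => ?_⟩
  have h4 := h3 (y := 1 + θ) (by rw [Real.dist_eq]; simpa [abs_of_pos hθ] using hθε)
    (by simpa using hθ)
  have hs : (1 : ℝ) < ((1 + θ : ℝ) : ℂ).re := by simpa using hθ
  have h5 : LSeries (fun n => (r n : ℂ)) ((1 + θ : ℝ) : ℂ) =
      ((∑' n, ‖tw (fun n => (r n : ℂ)) (1 + θ) n‖ : ℝ) : ℂ) := by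
    have h6 := DS_eq (b := fun n => (r n : ℂ)) (by simp [hr.zero]) (1 + θ) 0
    rw [Complex.ofReal_zero, zero_mul, add_zero] at h6
    rw [← h6, DS, Complex.ofReal_tsum]
    refine tsum_congr fun n => ?_
    rw [zero_mul, Complex.ofReal_zero, neg_zero, zero_mul, Complex.exp_zero, mul_one, tw_norm, tw,
      Complex.norm_real, Real.norm_of_nonneg (hr.nonneg n)]
    push_cast
    rfl
  rw [h5] at h4
  have h6 : (((1 + θ : ℝ) : ℂ) - 1) * ((∑' n, ‖tw (fun n => (r n : ℂ)) (1 + θ) n‖ : ℝ) : ℂ) =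
      ((θ * ∑' n, ‖tw (fun n => (r n : ℂ)) (1 + θ) n‖ : ℝ) : ℂ) := by
    push_cast; ring
  rw [h6, Complex.ofReal_re] at h4
  exact h4.le

theorem Hs.F_le (h : Hs r a L) (hr : Rm r ρ C) : ∃ θ₁ : ℝ, 0 < θ₁ ∧
    ∀ θ : ℝ, 0 < θ → θ < θ₁ → ∀ y : ℝ, θ * ‖DS (tw a (1 + θ)) y‖ ≤ 2 * C := by
  obtain ⟨θ₁, hθ₁, h1⟩ := hr.up
  refine ⟨θ₁, hθ₁, fun θ hθ hθ' y => le_trans ?_ (h1 θ hθ hθ')⟩
  refine mul_le_mul_of_nonneg_left ?_ hθ.le
  have hs : (1 : ℝ) < ((1 + θ : ℝ) : ℂ).re := by simpa using hθ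
  have s1 : Summable fun n => ‖tw a (1 + θ) n‖ := (tw_summable h.zero).mpr (h.summ hr hs)
  have s2 : Summable fun n => ‖tw (fun n => (r n : ℂ)) (1 + θ) n‖ :=
    (tw_summable (by simp [hr.zero])).mpr (hr.summ hs)
  refine (DS_norm_le s1 y).trans (s1.tsum_le_tsum (fun n => ?_) s2)
  rw [tw_norm, tw_norm, Complex.norm_real, Real.norm_of_nonneg (hr.nonneg n)]
  exact mul_le_mul_of_nonneg_right (h.le n) (Real.exp_pos _).le

/-- mean square of the derivative, on the frequency side and on the time side -/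
theorem Hs.main_sq (h : Hs r a L) (hr : Rm r ρ C) (hF : HF a) (η : ℝ) (hη : 0 < η) :
    ∃ θ₀ : ℝ, 0 < θ₀ ∧ θ₀ ≤ 1 ∧ ∀ θ : ℝ, 0 < θ → θ < θ₀ →
      Integrable (fun t => ‖S (al a) t‖ ^ 2 * Real.exp (-(2 * (1 + θ) * t))) ∧
      ∫ t, ‖S (al a) t‖ ^ 2 * Real.exp (-(2 * (1 + θ) * t)) ≤ 8 * CC ^ 2 * η ^ 2 / θ ^ 3 := by
  have hC := hr.C0
  set B : ℝ := max 2 (16 * C ^ 2 / η ^ 2) with hB
  have hB2 : 2 ≤ B := le_max_left _ _
  have hB16 : 16 * C ^ 2 / B ≤ η ^ 2 := by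
    rw [div_le_iff₀ (by linarith)]
    have h1 : 16 * C ^ 2 / η ^ 2 ≤ B := le_max_right _ _
    rw [div_le_iff₀ (by positivity)] at h1
    linarith
  obtain ⟨θ₀, hθ₀, hθ₀1, h0⟩ := hF B η hη
  obtain ⟨θ₁, hθ₁, h1⟩ := h.F_le hr
  refine ⟨min θ₀ θ₁, lt_min hθ₀ hθ₁, (min_le_left _ _).trans hθ₀1, fun θ hθ hθm => ?_⟩
  have hθ' : θ < θ₀ := lt_of_lt_of_le hθm (min_le_left _ _)
  have hθ'' : θ < θ₁ := lt_of_lt_of_le hθm (min_le_right _ _)
  have hθ1 : θ ≤ 1 := by linarith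
  have hσ : 0 < 1 + θ := by linarith
  have hs : 1 < ((1 + θ : ℝ) : ℂ).re := by simpa using hθ
  have hal0 : al a 0 = 0 := by simp [al]
  have haL0 : L 0 = 0 := h.L0
  have sal : Summable fun n => ‖tw (al a) (1 + θ) n‖ :=
    (tw_summable hal0).mpr (h.al_LSeries hr hs).1
  have saL : Summable fun n => ‖tw L (1 + θ) n‖ :=
    (tw_summable haL0).mpr (h.Lsumm hs)
  refine ⟨(time hal0 hσ sal).1, ?_⟩
  obtain ⟨d1, d2⟩ := h.D_sq hθ hθ1 hB2
  have hprod : ∀ y, ‖DS (tw (al a) (1 + θ)) y‖ = ‖DS (tw a (1 + θ)) y‖ *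
      ‖DS (tw L (1 + θ)) y‖ := by
    intro y
    rw [DS_eq hal0, DS_eq haL0, DS_eq h.zero, (h.al_LSeries hr ?_).2, norm_mul]
    simpa using hθ
  have hpt : ∀ y, ‖DS (tw (al a) (1 + θ)) y‖ ^ 2 * K (1 + θ) y ≤
      (η / θ) ^ 2 * (‖DS (tw L (1 + θ)) y‖ ^ 2 * K (1 + θ) y) +
      (16 * C ^ 2 / B / θ ^ 2) * (‖DS (tw L (1 + θ)) y‖ ^ 2 * K B y) := by
    intro y
    have hK1 := K_nonneg hσ y
    have hK2 := K_nonneg (show 0 < B by linarith) y
    rw [hprod, mul_pow]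
    set D := ‖DS (tw L (1 + θ)) y‖ ^ 2 with hD
    have hD0 : 0 ≤ D := by positivity
    by_cases hy : |y| ≤ B
    · have h2 := h0 θ hθ hθ' y hy
      have h3 : ‖DS (tw a (1 + θ)) y‖ ≤ η / θ := by
        rw [le_div_iff₀ hθ]; linarith
      have h4 := pow_le_pow_left₀ (norm_nonneg _) h3 2
      have h5 : 0 ≤ (16 * C ^ 2 / B / θ ^ 2) * (D * K B y) := by positivity
      have h6 := mul_le_mul_of_nonneg_right h4 (show 0 ≤ D * K (1 + θ) y by positivity)
      linarith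
    · rw [not_le] at hy
      have h2 := h1 θ hθ hθ'' y
      have h3 : ‖DS (tw a (1 + θ)) y‖ ≤ 2 * C / θ := by
        rw [le_div_iff₀ hθ]; linarith
      have h4 := pow_le_pow_left₀ (norm_nonneg _) h3 2
      have h5 : 0 ≤ (η / θ) ^ 2 * (D * K (1 + θ) y) := by positivity
      have hyB : B ^ 2 ≤ y ^ 2 := by
        rw [← sq_abs y]; exact pow_le_pow_left₀ (by linarith) hy.le 2
      have h6 : K (1 + θ) y ≤ 4 / B * K B y := by
        have hB0 : 0 < B := by linarith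
        unfold K
        rw [div_mul_div_comm, div_le_div_iff₀ (by positivity) (by positivity)]
        have : (1 + θ) * (B * (B ^ 2 + y ^ 2)) ≤ 2 * (B * (2 * y ^ 2)) := by
          refine mul_le_mul (by linarith) ?_ (by positivity) (by norm_num)
          exact mul_le_mul_of_nonneg_left (by linarith) hB0.le
        have h7 : 2 * (B * (2 * y ^ 2)) ≤ 4 * B * ((1 + θ) ^ 2 + y ^ 2) := by
          have : 0 ≤ B * (1 + θ) ^ 2 := by positivity
          linarith
        linarith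
      calc _ ≤ (2 * C / θ) ^ 2 * D * (4 / B * K B y) := by
            refine mul_le_mul (mul_le_mul_of_nonneg_right h4 hD0) h6 hK1 (by positivity)
        _ = (16 * C ^ 2 / B / θ ^ 2) * (D * K B y) := by ring
        _ ≤ _ := by linarith
  have hint1 := DS_int sal hσ
  have hint2 := DS_int saL hσ
  have hint3 := DS_int saL (show 0 < B by linarith)
  have hI : ∫ y, ‖DS (tw (al a) (1 + θ)) y‖ ^ 2 * K (1 + θ) y ≤
      (η / θ) ^ 2 * (8 * Real.pi * CC ^ 2 / θ) +
      (16 * C ^ 2 / B / θ ^ 2) * (8 * Real.pi * CC ^ 2 / θ) := by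
    calc _ ≤ ∫ y, ((η / θ) ^ 2 * (‖DS (tw L (1 + θ)) y‖ ^ 2 * K (1 + θ) y) +
      (16 * C ^ 2 / B / θ ^ 2) * (‖DS (tw L (1 + θ)) y‖ ^ 2 * K B y)) :=
          integral_mono hint1 ((hint2.const_mul _).add (hint3.const_mul _)) hpt
      _ = (η / θ) ^ 2 * (∫ y, ‖DS (tw L (1 + θ)) y‖ ^ 2 * K (1 + θ) y) +
      (16 * C ^ 2 / B / θ ^ 2) * (∫ y, ‖DS (tw L (1 + θ)) y‖ ^ 2 * K B y) := by
          rw [integral_add (hint2.const_mul _) (hint3.const_mul _), integral_const_mul,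
            integral_const_mul]
      _ ≤ _ := by
          refine add_le_add (mul_le_mul_of_nonneg_left d1 (by positivity))
            (mul_le_mul_of_nonneg_left d2 ?_)
          have : 0 < B := by linarith
          positivity
  have hP := planch hal0 hσ sal
  change ∫ y, ‖DS (tw (al a) (1 + θ)) y‖ ^ 2 * K (1 + θ) y = _ at hP
  rw [hP] at hI
  have hpi := Real.pi_pos
  have hcc := CC_pos
  set X := ∫ t, ‖S (al a) t‖ ^ 2 * Real.exp (-(2 * (1 + θ) * t)) with hX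
  have hX0 : 0 ≤ X := integral_nonneg fun t => by positivity
  have h8 : 2 * Real.pi * X ≤ 2 * Real.pi * (8 * CC ^ 2 * η ^ 2 / θ ^ 3) := by
    calc 2 * Real.pi * X ≤ 2 * Real.pi * (1 + θ) * X := by
          have : 0 ≤ 2 * Real.pi * X * θ := by positivity
          nlinarith
      _ ≤ _ := hI
      _ = (η ^ 2 + 16 * C ^ 2 / B) * (8 * Real.pi * CC ^ 2 / θ ^ 3) := by
          have : B ≠ 0 := by linarith
          field_simp
      _ ≤ (η ^ 2 + η ^ 2) * (8 * Real.pi * CC ^ 2 / θ ^ 3) :=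
          mul_le_mul_of_nonneg_right (by linarith) (by positivity)
      _ = _ := by ring
  exact le_of_mul_le_mul_left h8 (by positivity)

/-! ### Normalised partial sums -/

/-- normalised partial sums -/
noncomputable def m (a : ℕ → ℂ) (u : ℝ) : ℝ := ‖S a u‖ * Real.exp (-u)

theorem m_nonneg (a : ℕ → ℂ) (u : ℝ) : 0 ≤ m a u := by unfold m; positivity

theorem Hs.S_le (h : Hs r a L) (hr : Rm r ρ C) (u : ℝ) : ‖S a u‖ ≤ 2 * C * Real.exp u := by
  unfold S
  exact (norm_sum_le _ _).trans ((sum_le_sum fun n _ => h.le n).trans (hr.bdexp u))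

theorem Hs.m_le (h : Hs r a L) (hr : Rm r ρ C) (u : ℝ) : m a u ≤ 2 * C := by
  unfold m
  calc _ ≤ 2 * C * Real.exp u * Real.exp (-u) :=
        mul_le_mul_of_nonneg_right (h.S_le hr u) (Real.exp_pos _).le
    _ = 2 * C := by rw [mul_assoc, ← Real.exp_add]; simp

theorem S_meas (a : ℕ → ℂ) : Measurable (S a) := by
  have : S a = (fun N : ℕ => ∑ n ∈ Icc 1 N, a n) ∘ (fun t : ℝ => ⌊Real.exp t⌋₊) := rfl
  rw [this]
  exact measurable_from_nat.comp (Nat.measurable_floor.comp Real.measurable_exp)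

theorem m_meas (a : ℕ → ℂ) : Measurable (m a) := by
  unfold m; exact (S_meas a).norm.mul (by fun_prop)

theorem Hs.m_ii (h : Hs r a L) (hr : Rm r ρ C) (x y : ℝ) :
    IntervalIntegrable (m a) volume x y := by
  refine (intervalIntegrable_const (c := 2 * C)).mono_fun (m_meas a).aestronglyMeasurable ?_
  refine Eventually.of_forall fun u => ?_
  change ‖m a u‖ ≤ ‖(2 * C : ℝ)‖
  have := hr.C0
  rw [Real.norm_of_nonneg (m_nonneg a u), Real.norm_of_nonneg (by positivity)]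
  exact h.m_le hr u

/-- comparison of the sums with and without logarithmic weight -/
theorem Hs.log_cmp (h : Hs r a L) (hr : Rm r ρ C) {t : ℝ} (ht : 0 ≤ t) :
    t * m a t ≤ ‖S (al a) t‖ * Real.exp (-t) + 4 * C := by
  have hC := hr.C0
  set N := ⌊Real.exp t⌋₊ with hN
  have hw : ∑ n ∈ Icc 1 N, r n * (t - Real.log n) ≤ 4 * C * Real.exp t := by
    have h1 : ∀ n ∈ Icc 1 N, r n * (t - Real.log n) ≤
        ∑ k ∈ range (⌊t⌋₊ + 1), if n ∈ Icc 1 ⌊Real.exp (t - k)⌋₊ then r n else 0 := by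
      intro n hn
      rw [mem_Icc] at hn
      have h4 : (0 : ℝ) < n := by exact_mod_cast hn.1
      have h5 : Real.log n ≤ t := by
        rw [Real.log_le_iff_le_exp h4]
        exact (Nat.le_floor_iff (Real.exp_pos t).le).mp hn.2
      have h6 : 0 ≤ Real.log n := Real.log_nonneg (by exact_mod_cast hn.1)
      have h7 : range (⌊t - Real.log n⌋₊ + 1) ⊆ range (⌊t⌋₊ + 1) := by
        refine range_subset_range.2 (Nat.succ_le_succ (Nat.floor_le_floor (by linarith)))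
      have h8 : ∑ k ∈ range (⌊t - Real.log n⌋₊ + 1), r n ≤
          ∑ k ∈ range (⌊t⌋₊ + 1), if n ∈ Icc 1 ⌊Real.exp (t - k)⌋₊ then r n else 0 := by
        have h9 : ∑ k ∈ range (⌊t - Real.log n⌋₊ + 1), r n =
            ∑ k ∈ range (⌊t - Real.log n⌋₊ + 1),
              if n ∈ Icc 1 ⌊Real.exp (t - k)⌋₊ then r n else 0 := by
          refine sum_congr rfl fun k hk => ?_
          rw [mem_range, Nat.lt_succ_iff] at hk
          have h10 : (k : ℝ) ≤ t - Real.log n := by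
            rwa [Nat.le_floor_iff (by linarith)] at hk
          rw [if_pos]
          rw [mem_Icc]
          refine ⟨hn.1, Nat.le_floor ?_⟩
          rw [← Real.log_le_iff_le_exp h4]
          linarith
        rw [h9]
        refine sum_le_sum_of_subset_of_nonneg h7 fun k _ _ => ?_
        split_ifs
        · exact hr.nonneg n
        · exact le_rfl
      refine le_trans ?_ h8
      rw [sum_const, card_range, nsmul_eq_mul, mul_comm]
      refine mul_le_mul_of_nonneg_right ?_ (hr.nonneg n)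
      push_cast
      exact (Nat.lt_floor_add_one _).le
    refine (sum_le_sum h1).trans ?_
    rw [sum_comm]
    have h2 : ∀ k ∈ range (⌊t⌋₊ + 1),
        ∑ n ∈ Icc 1 N, (if n ∈ Icc 1 ⌊Real.exp (t - k)⌋₊ then r n else 0) ≤
        2 * C * Real.exp t * (1 / 2) ^ k := by
      intro k _
      rw [← sum_filter]
      have h3 : (Icc 1 N).filter (fun n => n ∈ Icc 1 ⌊Real.exp (t - k)⌋₊) ⊆
          Icc 1 ⌊Real.exp (t - k)⌋₊ := by
        intro n hn
        exact (mem_filter.1 hn).2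
      refine (sum_le_sum_of_subset_of_nonneg h3 fun n _ _ => hr.nonneg n).trans ?_
      refine (hr.bdexp (t - k)).trans ?_
      rw [Real.exp_sub]
      have h9 : (2 : ℝ) ≤ Real.exp 1 := by
        have := Real.add_one_le_exp (1 : ℝ); linarith
      have h10 : (2 : ℝ) ^ k ≤ Real.exp k := by
        calc (2 : ℝ) ^ k ≤ (Real.exp 1) ^ k := pow_le_pow_left₀ (by norm_num) h9 k
          _ = Real.exp k := by rw [← Real.exp_nat_mul]; simp
      have h11 : Real.exp t / Real.exp k ≤ Real.exp t * (1 / 2) ^ k := by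
        rw [div_eq_mul_inv, one_div, inv_pow]
        exact mul_le_mul_of_nonneg_left (inv_anti₀ (by positivity) h10) (Real.exp_pos t).le
      calc 2 * C * (Real.exp t / Real.exp k) ≤ 2 * C * (Real.exp t * (1 / 2) ^ k) :=
            mul_le_mul_of_nonneg_left h11 (by positivity)
        _ = _ := by ring
    refine (sum_le_sum h2).trans ?_
    rw [← mul_sum]
    have h3 := sum_geometric_two_le (⌊t⌋₊ + 1)
    calc 2 * C * Real.exp t * ∑ i ∈ range (⌊t⌋₊ + 1), (1 / 2 : ℝ) ^ i ≤ 2 * C * Real.exp t * 2 :=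
          mul_le_mul_of_nonneg_left h3 (by positivity)
      _ = _ := by ring
  have h1 : ‖(t : ℂ) * S a t - S (al a) t‖ ≤ 4 * C * Real.exp t := by
    have h2 : (t : ℂ) * S a t - S (al a) t = ∑ n ∈ Icc 1 N, a n * ((t - Real.log n : ℝ) : ℂ) := by
      unfold S al
      rw [mul_sum, ← sum_sub_distrib]
      refine sum_congr rfl fun n _ => ?_
      push_cast; ring
    rw [h2]
    have h3 : ∀ n ∈ Icc 1 N, ‖a n * ((t - Real.log n : ℝ) : ℂ)‖ ≤ r n * (t - Real.log n) := by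
      intro n hn
      rw [mem_Icc] at hn
      have h4 : (0 : ℝ) < n := by exact_mod_cast hn.1
      have h5 : Real.log n ≤ t := by
        rw [Real.log_le_iff_le_exp h4]
        exact (Nat.le_floor_iff (Real.exp_pos t).le).mp hn.2
      rw [norm_mul, Complex.norm_real, Real.norm_of_nonneg (by linarith)]
      exact mul_le_mul_of_nonneg_right (h.le n) (by linarith)
    exact (norm_sum_le _ _).trans ((sum_le_sum h3).trans hw)
  have h2 : t * ‖S a t‖ ≤ ‖S (al a) t‖ + 4 * C * Real.exp t := by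
    have h3 : ‖(t : ℂ) * S a t‖ = t * ‖S a t‖ := by
      rw [norm_mul, Complex.norm_real, Real.norm_of_nonneg ht]
    have h4 := norm_sub_norm_le ((t : ℂ) * S a t) (S (al a) t)
    rw [h3] at h4
    linarith
  have h3 := mul_le_mul_of_nonneg_right h2 (Real.exp_pos (-t)).le
  have h4 : Real.exp t * Real.exp (-t) = 1 := by rw [← Real.exp_add]; simp
  unfold m
  calc t * (‖S a t‖ * Real.exp (-t)) = t * ‖S a t‖ * Real.exp (-t) := by ring
    _ ≤ _ := h3
    _ = _ := by rw [add_mul, mul_assoc (4 * C), h4, mul_one]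

/-- the mean of the normalised partial sums over the scales vanishes -/
theorem Hs.mean_m (h : Hs r a L) (hr : Rm r ρ C) (hF : HF a) (ε : ℝ) (hε : 0 < ε) :
    ∃ T₀ : ℝ, 1 ≤ T₀ ∧ ∀ T : ℝ, T₀ ≤ T → ∫ t in (0 : ℝ)..T, m a t ≤ ε * T := by
  have hC := hr.C0
  set ρ' : ℝ := min (ε / (8 * C)) 1 with hρ
  have hρ0 : 0 < ρ' := lt_min (by positivity) one_pos
  have hρε : ρ' * (2 * C) ≤ ε / 4 := by
    have h1 : ρ' ≤ ε / (8 * C) := min_le_left _ _
    calc ρ' * (2 * C) ≤ ε / (8 * C) * (2 * C) := mul_le_mul_of_nonneg_right h1 (by positivity)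
      _ = ε / 4 := by field_simp; ring
  have hρ1 : ρ' ≤ 1 := min_le_right _ _
  set c : ℝ := 1 / 2 + 4 * Real.exp 2 * CC ^ 2 with hc
  have hc0 : 0 < c := by have := CC_pos; positivity
  set η : ℝ := ρ' * (ε / 4) / c with hη
  have hη0 : 0 < η := by positivity
  obtain ⟨δ₀, hδ₀, hδ₁, h1⟩ := h.main_sq hr hF η hη0
  refine ⟨max (2 / δ₀) (16 * C / (ρ' * ε) + 1), le_max_of_le_right ?_, fun T hT => ?_⟩
  · have : 0 < 16 * C / (ρ' * ε) := by positivity
    linarith
  have hT1 : 2 / δ₀ ≤ T := (le_max_left _ _).trans hT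
  have hT2 : 16 * C / (ρ' * ε) + 1 ≤ T := (le_max_right _ _).trans hT
  have hT0 : 0 < T := by
    have : 0 < 16 * C / (ρ' * ε) := by positivity
    linarith
  have hδT : 1 / T < δ₀ := by
    rw [div_lt_iff₀ hT0]
    rw [div_le_iff₀ hδ₀] at hT1
    linarith
  obtain ⟨hi, hb⟩ := h1 (1 / T) (by positivity) hδT
  set q : ℝ → ℝ := fun t => ‖S (al a) t‖ ^ 2 * Real.exp (-(2 * (1 + 1 / T) * t)) with hq
  have hq0 : ∀ t, 0 ≤ q t := fun t => by rw [hq]; positivity
  have hqT : ∫ t in (0 : ℝ)..T, q t ≤ 8 * CC ^ 2 * η ^ 2 * T ^ 3 := by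
    rw [intervalIntegral.integral_of_le hT0.le]
    refine (setIntegral_le_integral hi (Eventually.of_forall hq0)).trans (hb.trans (le_of_eq ?_))
    field_simp
  have hsplit : ∫ t in (0 : ℝ)..T, m a t = (∫ t in (0 : ℝ)..(ρ' * T), m a t) +
      ∫ t in (ρ' * T)..T, m a t :=
    (intervalIntegral.integral_add_adjacent_intervals (h.m_ii hr _ _) (h.m_ii hr _ _)).symm
  have hρT : ρ' * T ≤ T := by nlinarith
  have hρT0 : 0 < ρ' * T := by positivity
  have hI1 : ∫ t in (0 : ℝ)..(ρ' * T), m a t ≤ ρ' * T * (2 * C) := by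
    have : ∫ t in (0 : ℝ)..(ρ' * T), m a t ≤ ∫ t in (0 : ℝ)..(ρ' * T), (2 * C : ℝ) :=
      intervalIntegral.integral_mono_on hρT0.le (h.m_ii hr _ _) intervalIntegrable_const
        fun t _ => h.m_le hr t
    rw [intervalIntegral.integral_const, smul_eq_mul, sub_zero] at this
    exact this
  have hqi : ∀ x y, IntervalIntegrable q volume x y := fun x y => hi.intervalIntegrable
  have hI2 : ∫ t in (ρ' * T)..T, m a t ≤
      ∫ t in (ρ' * T)..T, ((η / (2 * ρ') + 4 * C / (ρ' * T)) +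
        Real.exp 2 / (2 * η * ρ' * T ^ 2) * q t) := by
    refine intervalIntegral.integral_mono_on hρT (h.m_ii hr _ _)
      (intervalIntegrable_const.add ((hqi _ _).const_mul _)) fun t ht => ?_
    have ht0 : 0 < t := lt_of_lt_of_le hρT0 ht.1
    have h2 := h.log_cmp hr ht0.le
    set X := ‖S (al a) t‖ * Real.exp (-t) with hX
    have hX0 : 0 ≤ X := by positivity
    have h3 : ρ' * T * m a t ≤ X + 4 * C :=
      (mul_le_mul_of_nonneg_right ht.1 (m_nonneg a t)).trans h2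
    have h4 : X ≤ (η * T + X ^ 2 / (η * T)) / 2 := by
      have h5 : 0 < η * T := by positivity
      rw [le_div_iff₀ (by norm_num : (0 : ℝ) < 2), ← sub_nonneg]
      have : η * T + X ^ 2 / (η * T) - X * 2 = (η * T - X) ^ 2 / (η * T) := by
        field_simp; ring
      rw [this]; positivity
    have h5 : X ^ 2 ≤ Real.exp 2 * q t := by
      rw [hX, hq, mul_pow]
      simp only
      have h6 : Real.exp (-t) ^ 2 ≤ Real.exp 2 * Real.exp (-(2 * (1 + 1 / T) * t)) := by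
        rw [← Real.exp_nat_mul, ← Real.exp_add, Real.exp_le_exp]
        have h7 : t / T ≤ 1 := by rw [div_le_one hT0]; exact ht.2
        have h8 : 2 * (1 + 1 / T) * t = 2 * t + 2 * (t / T) := by ring
        rw [h8]; push_cast; linarith
      calc _ ≤ ‖S (al a) t‖ ^ 2 * (Real.exp 2 * Real.exp (-(2 * (1 + 1 / T) * t))) :=
            mul_le_mul_of_nonneg_left h6 (by positivity)
        _ = _ := by ring
    have h6 : ρ' * T * m a t ≤ η * T / 2 + 4 * C + Real.exp 2 * q t / (2 * (η * T)) := by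
      have h7 : X ^ 2 / (η * T) ≤ Real.exp 2 * q t / (η * T) :=
        div_le_div_of_nonneg_right h5 (by positivity)
      have h8 : Real.exp 2 * q t / (2 * (η * T)) = Real.exp 2 * q t / (η * T) / 2 := by
        field_simp
      rw [h8]; linarith
    have h7 : m a t ≤ (η * T / 2 + 4 * C + Real.exp 2 * q t / (2 * (η * T))) / (ρ' * T) := by
      rw [le_div_iff₀ hρT0]; linarith
    refine h7.trans (le_of_eq ?_)
    field_simp
  have hI3 : ∫ t in (ρ' * T)..T, ((η / (2 * ρ') + 4 * C / (ρ' * T)) +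
      Real.exp 2 / (2 * η * ρ' * T ^ 2) * q t) ≤
      T * (η / (2 * ρ')) + 4 * C / ρ' + Real.exp 2 / (2 * η * ρ' * T ^ 2) *
        (8 * CC ^ 2 * η ^ 2 * T ^ 3) := by
    rw [intervalIntegral.integral_add intervalIntegrable_const ((hqi _ _).const_mul _),
      intervalIntegral.integral_const, intervalIntegral.integral_const_mul, smul_eq_mul]
    have h2 : ∫ t in (ρ' * T)..T, q t ≤ 8 * CC ^ 2 * η ^ 2 * T ^ 3 := by
      refine le_trans ?_ hqT
      have h3 : ∫ t in (0 : ℝ)..T, q t = (∫ t in (0 : ℝ)..(ρ' * T), q t) +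
        ∫ t in (ρ' * T)..T, q t :=
        (intervalIntegral.integral_add_adjacent_intervals (hqi _ _) (hqi _ _)).symm
      have h4 : 0 ≤ ∫ t in (0 : ℝ)..(ρ' * T), q t :=
        intervalIntegral.integral_nonneg hρT0.le fun t _ => hq0 t
      linarith
    have h3 : (T - ρ' * T) * (η / (2 * ρ') + 4 * C / (ρ' * T)) ≤
        T * (η / (2 * ρ')) + 4 * C / ρ' := by
      calc _ ≤ T * (η / (2 * ρ') + 4 * C / (ρ' * T)) :=
            mul_le_mul_of_nonneg_right (by linarith) (by positivity)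
        _ = _ := by field_simp
    exact add_le_add h3 (mul_le_mul_of_nonneg_left h2 (by positivity))
  have hfin : T * (η / (2 * ρ')) + 4 * C / ρ' + Real.exp 2 / (2 * η * ρ' * T ^ 2) *
        (8 * CC ^ 2 * η ^ 2 * T ^ 3) = T * (η * c / ρ') + 4 * C / ρ' := by
    rw [hc]; field_simp; ring
  have hηc : η * c / ρ' = ε / 4 := by rw [hη]; field_simp
  have h1ρ : 4 * C / ρ' ≤ ε / 4 * T := by
    have h2 : 16 * C / (ρ' * ε) ≤ T := by linarith
    rw [div_le_iff₀ (by positivity)] at h2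
    rw [div_le_iff₀ hρ0]
    nlinarith
  have h5 : ρ' * T * (2 * C) ≤ ε / 4 * T := by
    calc ρ' * T * (2 * C) = ρ' * (2 * C) * T := by ring
      _ ≤ ε / 4 * T := mul_le_mul_of_nonneg_right hρε hT0.le
  rw [hsplit]
  rw [hfin, hηc] at hI3
  have h6 : 0 < ε * T := by positivity
  linarith [hI1, hI2, hI3]

end Pool.Agent.N912.HL
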