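import Pool.Agent.N912.HL.H5
import Pool.Agent.N912.PM.Pairs

/-!
Project HL (helper912), part 6: real characters of the Gaussian integers modulo `M` which are invariant
under conjugation are Dirichlet characters of the norm.
-/

set_option autoImplicit false

namespace Pool.Agent.N912.HL

open Finset Filter Topology
open Pool.Agent.W78.GA
open Pool.Agent.W78.EG
open Pool.Agent.W584.EG (rr aL_le sum_rr sum_ball uc_pos phi_le phi_pow)

theorem hD01 : (0 : ℤ) ^ 2 < 4 * 1 := by norm_num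

theorem nm_i (x y : ℤ) : ((nm (⟨x, y⟩ : Qd 0 1) : ℕ) : ℤ) = x ^ 2 + y ^ 2 := by
  rw [nm_cast hD01]
  ring

theorem cop_of_nm {M : ℕ} {z : Qd 0 1} (h : (nm z).Coprime M) : IsCoprime z (M : Qd 0 1) := by
  have h1 : IsCoprime ((nm z : ℕ) : ℤ) (M : ℤ) := Nat.isCoprime_iff_coprime.2 h
  obtain ⟨a, b, hab⟩ := h1
  refine ⟨(a : Qd 0 1) * star z, (b : Qd 0 1), ?_⟩
  rw [mul_assoc, star_mul_self' hD01]
  have h2 : ((a * (nm z : ℕ) + b * M : ℤ) : Qd 0 1) = 1 := by rw [hab]; simp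
  push_cast at h2
  exact h2

theorem phi_eq {M : ℕ} {φ : Qd 0 1 → ℂ} (H : HCh M φ) {z z' : Qd 0 1}
    (h1 : (M : ℤ) ∣ z.re - z'.re) (h2 : (M : ℤ) ∣ z.im - z'.im) : φ z = φ z' := H.per z z' h1 h2

theorem ker_fin {M : ℕ} (hM : 1 ≤ M) {φ : Qd 0 1 → ℂ} (H : HCh M φ)
    (hs : ∀ z, IsCoprime z (M : Qd 0 1) → φ (star z) = φ z) {z w e : Qd 0 1}
    (hw : (nm w).Coprime M) (he : nm e = 1) (h1 : (M : ℤ) ∣ (e * star w * z).re - w.re)
    (h2 : (M : ℤ) ∣ (e * star w * z).im - w.im) : φ z = 1 := by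
  have hc := cop_of_nm hw
  have h3 := phi_eq H h1 h2
  rw [H.mul, H.mul, H.unit e he, one_mul, hs w hc] at h3
  have h4 : φ w ≠ 0 := (H.ne w).2 hc
  have h5 : φ w * φ z = φ w * 1 := by rw [h3, mul_one]
  exact mul_left_cancel₀ h4 h5

theorem ker_aux {M : ℕ} (hM : 1 ≤ M) {φ : Qd 0 1 → ℂ} (H : HCh M φ)
    (hs : ∀ z, IsCoprime z (M : Qd 0 1) → φ (star z) = φ z) {x y : ℤ}
    (hz : ((8 * M : ℕ) : ℤ) ∣ x ^ 2 + y ^ 2 - 1) (hx : x % 4 ≠ 3) : φ ⟨x, y⟩ = 1 := by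
  classical
  obtain ⟨k, hk⟩ := hz
  obtain ⟨S, hS⟩ : ∃ S : Finset ℕ, S = M.primeFactors.filter
    (fun p => p ≠ 2 ∧ ¬ ((p : ℕ) : ℤ) ∣ 1 + x) := ⟨_, rfl⟩
  obtain ⟨B', hB'⟩ : ∃ B' : ℤ, B' = ∏ p ∈ S, (p : ℤ) := ⟨_, rfl⟩
  obtain ⟨B, hB⟩ : ∃ B : ℤ, B = 4 * B' := ⟨_, rfl⟩
  obtain ⟨W, hW⟩ : ∃ W : ℤ, W = (1 + x + B * y) ^ 2 + (y + B * (1 - x)) ^ 2 := ⟨_, rfl⟩
  have hn : x ^ 2 + y ^ 2 - 1 = 8 * M * k := by rw [hk]; push_cast; ring
  have hW1 : W = (x ^ 2 + y ^ 2 - 1) + 2 * (1 + x) + B * (B * ((x ^ 2 + y ^ 2 - 1) + 2 - 2 * x) +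
      4 * y) := by rw [hW]; ring
  have hW2 : W = (x ^ 2 + y ^ 2 - 1) * (1 + B ^ 2) + (1 + x) * (2 - 2 * B ^ 2) + 4 * B * y +
      4 * B ^ 2 := by rw [hW]; ring
  -- odd primes
  have hodd : ∀ p : ℕ, p.Prime → p ≠ 2 → p ∣ M → ¬ (p : ℤ) ∣ W := by
    intro p hp hp2 hpM hpW
    have hpz : Prime (p : ℤ) := Nat.prime_iff_prime_int.1 hp
    have hpn : (p : ℤ) ∣ x ^ 2 + y ^ 2 - 1 := by
      rw [hn]
      exact Dvd.dvd.mul_right (Dvd.dvd.mul_left (by exact_mod_cast hpM) 8) k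
    have hp4 : ¬ (p : ℤ) ∣ 2 := by
      intro h
      have h1 : p ∣ 2 := by exact_mod_cast h
      exact hp2 ((Nat.prime_dvd_prime_iff_eq hp Nat.prime_two).1 h1)
    by_cases hp1 : (p : ℤ) ∣ 1 + x
    · have hpB : ¬ (p : ℤ) ∣ B := by
        intro h
        rw [hB] at h
        rcases hpz.dvd_or_dvd h with h | h
        · have : (4 : ℤ) = 2 * 2 := by norm_num
          rw [this] at h
          rcases hpz.dvd_or_dvd h with h | h <;> exact hp4 h
        · rw [hB'] at h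
          obtain ⟨q, hq, hpq⟩ := (Prime.dvd_finsetProd_iff hpz _).1 h
          rw [hS, mem_filter] at hq
          have h1 : p ∣ q := by exact_mod_cast hpq
          have h2 := (Nat.prime_dvd_prime_iff_eq hp (Nat.prime_of_mem_primeFactors hq.1)).1 h1
          exact hq.2.2 (h2 ▸ hp1)
      have hpy : (p : ℤ) ∣ y := by
        have h1 : (p : ℤ) ∣ y ^ 2 := by
          have e : y ^ 2 = (x ^ 2 + y ^ 2 - 1) + (1 + x) * (1 - x) := by ring
          rw [e]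
          exact dvd_add hpn (Dvd.dvd.mul_right hp1 _)
        exact hpz.dvd_of_dvd_pow h1
      have h3 : (p : ℤ) ∣ 4 * B ^ 2 := by
        have e : 4 * B ^ 2 = W - (x ^ 2 + y ^ 2 - 1) * (1 + B ^ 2) - (1 + x) * (2 - 2 * B ^ 2) -
            4 * B * y := by rw [hW2]; ring
        rw [e]
        exact dvd_sub (dvd_sub (dvd_sub hpW (Dvd.dvd.mul_right hpn _)) (Dvd.dvd.mul_right hp1 _))
          (Dvd.dvd.mul_left hpy _)
      rcases hpz.dvd_or_dvd h3 with h | h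
      · have : (4 : ℤ) = 2 * 2 := by norm_num
        rw [this] at h
        rcases hpz.dvd_or_dvd h with h | h <;> exact hp4 h
      · exact hpB (hpz.dvd_of_dvd_pow h)
    · have hpB : (p : ℤ) ∣ B := by
        rw [hB, hB']
        refine Dvd.dvd.mul_left (Finset.dvd_prod_of_mem (fun q : ℕ => (q : ℤ)) ?_) 4
        rw [hS, mem_filter]
        exact ⟨Nat.mem_primeFactors.2 ⟨hp, hpM, by omega⟩, hp2, hp1⟩
      have h3 : (p : ℤ) ∣ 2 * (1 + x) := by
        have e : 2 * (1 + x) = W - (x ^ 2 + y ^ 2 - 1) -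
            B * (B * ((x ^ 2 + y ^ 2 - 1) + 2 - 2 * x) + 4 * y) := by rw [hW1]; ring
        rw [e]
        exact dvd_sub (dvd_sub hpW hpn) (Dvd.dvd.mul_right hpB _)
      rcases hpz.dvd_or_dvd h3 with h | h
      · exact hp4 h
      · exact hp1 h
  -- modulo 8
  have hmod : W % 8 = (2 + 2 * x) % 8 := by
    have e : W = 2 + 2 * x + 8 * (M * k + 2 * B' * (B' * ((x ^ 2 + y ^ 2 - 1) + 2 - 2 * x) + y)) := by
      rw [hW1, hB]
      linear_combination hn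
    rw [e]
    omega
  have hcop : ∀ (w : Qd 0 1) (j : ℤ), (W = j * (nm w : ℤ)) → (nm w : ℤ) % 2 = 1 →
      (nm w).Coprime M := by
    intro w j hj h2
    refine Nat.Coprime.symm (Nat.coprime_of_dvd fun p hp hpM hpw => ?_)
    by_cases hp2 : p = 2
    · rw [hp2] at hpw
      omega
    · refine hodd p hp hp2 hpM ?_
      rw [hj]
      exact Dvd.dvd.mul_left (by exact_mod_cast hpw) j
  have hcase : W % 8 = 4 ∨ W % 4 = 2 := by omega
  rcases hcase with h4 | h4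
  · -- both coordinates of `w` are even
    have hev : (1 + x + B * y) % 2 = 0 ∧ (y + B * (1 - x)) % 2 = 0 := by
      obtain ⟨α, hα⟩ : ∃ α : ℤ, α = 1 + x + B * y := ⟨_, rfl⟩
      obtain ⟨β, hβ⟩ : ∃ β : ℤ, β = y + B * (1 - x) := ⟨_, rfl⟩
      rw [← hα, ← hβ] at hW ⊢
      rcases Int.even_or_odd' α with ⟨i, rfl | rfl⟩ <;>
        rcases Int.even_or_odd' β with ⟨j, rfl | rfl⟩ <;> ring_nf at hW <;> omega
    obtain ⟨u, hu⟩ : ∃ u : ℤ, 1 + x + B * y = 2 * u := ⟨(1 + x + B * y) / 2, by omega⟩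
    obtain ⟨v, hv⟩ : ∃ v : ℤ, y + B * (1 - x) = 2 * v := ⟨(y + B * (1 - x)) / 2, by omega⟩
    have hWw : W = 4 * (nm (⟨u, v⟩ : Qd 0 1) : ℤ) := by
      rw [nm_i, hW, hu, hv]; ring
    refine ker_fin hM H hs (w := ⟨u, v⟩) (e := 1) (hcop _ 4 hWw (by omega)) nm_one ?_ ?_
    · have e : (1 * star (⟨u, v⟩ : Qd 0 1) * ⟨x, y⟩).re - (⟨u, v⟩ : Qd 0 1).re =
          (M : ℤ) * (4 * k) := by
        simp only [one_mul, QuadraticAlgebra.re_mul, QuadraticAlgebra.re_star,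
          QuadraticAlgebra.im_star]
        have h5 : 2 * ((u + 0 * v) * x + -1 * -v * y - u) = 2 * (M * (4 * k)) := by
          linear_combination hn + (1 - x) * hu - y * hv
        linarith
      rw [e]
      exact dvd_mul_right _ _
    · have e : (1 * star (⟨u, v⟩ : Qd 0 1) * ⟨x, y⟩).im - (⟨u, v⟩ : Qd 0 1).im =
          (M : ℤ) * (4 * k * B) := by
        simp only [one_mul, QuadraticAlgebra.im_mul, QuadraticAlgebra.re_star,
          QuadraticAlgebra.im_star]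
        have h5 : 2 * ((u + 0 * v) * y + -v * x + 0 * -v * y - v) = 2 * (M * (4 * k * B)) := by
          linear_combination B * hn - y * hu + (x + 1) * hv
        linarith
      rw [e]
      exact dvd_mul_right _ _
  · -- both coordinates are odd
    have hod : (1 + x + B * y) % 2 = 1 ∧ (y + B * (1 - x)) % 2 = 1 := by
      obtain ⟨α, hα⟩ : ∃ α : ℤ, α = 1 + x + B * y := ⟨_, rfl⟩
      obtain ⟨β, hβ⟩ : ∃ β : ℤ, β = y + B * (1 - x) := ⟨_, rfl⟩
      rw [← hα, ← hβ] at hW ⊢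
      rcases Int.even_or_odd' α with ⟨i, rfl | rfl⟩ <;>
        rcases Int.even_or_odd' β with ⟨j, rfl | rfl⟩ <;> ring_nf at hW <;> omega
    obtain ⟨p, q, hp, hq⟩ : ∃ p q : ℤ, 1 + x + B * y = p - q ∧ y + B * (1 - x) = p + q := by
      refine ⟨((1 + x + B * y) + (y + B * (1 - x))) / 2,
        ((y + B * (1 - x)) - (1 + x + B * y)) / 2, ?_, ?_⟩ <;> omega
    have hWw : W = 2 * (nm (⟨p, q⟩ : Qd 0 1) : ℤ) := by
      rw [nm_i, hW, hp, hq]; ring
    have hei : nm (⟨0, -1⟩ : Qd 0 1) = 1 := by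
      have h := nm_i 0 (-1)
      norm_num at h
      exact_mod_cast h
    refine ker_fin hM H hs (w := ⟨p, q⟩) (e := ⟨0, -1⟩) (hcop _ 2 hWw (by omega)) hei ?_ ?_
    · have e : ((⟨0, -1⟩ : Qd 0 1) * star (⟨p, q⟩ : Qd 0 1) * ⟨x, y⟩).re -
          (⟨p, q⟩ : Qd 0 1).re = (M : ℤ) * (4 * k * (1 + B)) := by
        simp only [QuadraticAlgebra.re_mul, QuadraticAlgebra.im_mul, QuadraticAlgebra.re_star,
          QuadraticAlgebra.im_star]
        have h5 : 2 * (p * y - q * x - p) = 2 * (M * (4 * k * (1 + B))) := by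
          linear_combination (1 + B) * hn + (1 - x - y) * hp + (1 + x - y) * hq
        linarith
      rw [e]
      exact dvd_mul_right _ _
    · have e : ((⟨0, -1⟩ : Qd 0 1) * star (⟨p, q⟩ : Qd 0 1) * ⟨x, y⟩).im -
          (⟨p, q⟩ : Qd 0 1).im = (M : ℤ) * (4 * k * (B - 1)) := by
        simp only [QuadraticAlgebra.re_mul, QuadraticAlgebra.im_mul, QuadraticAlgebra.re_star,
          QuadraticAlgebra.im_star]
        have h5 : 2 * (-(p * x + q * y) - q) = 2 * (M * (4 * k * (B - 1))) := by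
          linear_combination (B - 1) * hn + (x - y - 1) * hp + (x + y + 1) * hq
        linarith
      rw [e]
      exact dvd_mul_right _ _

theorem ker {M : ℕ} (hM : 1 ≤ M) {φ : Qd 0 1 → ℂ} (H : HCh M φ)
    (hs : ∀ z, IsCoprime z (M : Qd 0 1) → φ (star z) = φ z) {z : Qd 0 1}
    (hz : ((8 * M : ℕ) : ℤ) ∣ (nm z : ℤ) - 1) : φ z = 1 := by
  obtain ⟨x, y⟩ := z
  rw [nm_i] at hz
  by_cases hx : x % 4 = 3
  · have h1 := ker_aux hM H hs (x := -x) (y := -y) (by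
      have e : (-x) ^ 2 + (-y) ^ 2 - 1 = x ^ 2 + y ^ 2 - 1 := by ring
      rw [e]
      exact hz) (by omega)
    have h2 : (⟨x, y⟩ : Qd 0 1) = (⟨-1, 0⟩ : Qd 0 1) * ⟨-x, -y⟩ := by
      apply QuadraticAlgebra.ext
      · simp
      · simp
    have h3 : nm (⟨-1, 0⟩ : Qd 0 1) = 1 := by
      have h := nm_i (-1) 0
      norm_num at h
      exact_mod_cast h
    rw [h2, H.mul, H.unit _ h3, h1, one_mul]
  · exact ker_aux hM H hs hz hx

end Pool.Agent.N912.HL
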