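import Pool.Agent.N912.HL.H6

/-!
Project HL (helper912), part 7: from conjugation invariant real characters of the Gaussian integers to
real Dirichlet characters.
-/

set_option autoImplicit false

namespace Pool.Agent.N912.HL

open Finset Filter Topology
open Pool.Agent.W78.GA
open Pool.Agent.W78.EG
open Pool.Agent.W584.EG (rr aL_le sum_rr sum_ball uc_pos phi_le phi_pow)

section

variable {M : ℕ} {φ : Qd 0 1 → ℂ}

theorem cop_star {z : Qd 0 1} (h : IsCoprime z (M : Qd 0 1)) : IsCoprime (star z) (M : Qd 0 1) := by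
  obtain ⟨a, b, hab⟩ := h
  refine ⟨star a, star b, ?_⟩
  have h1 := congrArg star hab
  rw [star_add, star_mul, star_mul, star_one] at h1
  have h2 : star ((M : ℕ) : Qd 0 1) = (M : Qd 0 1) := by
    apply QuadraticAlgebra.ext
    · simp
    · simp
  rw [h2] at h1
  rw [← h1]
  ring

/-- `φ` only depends on the class of the norm -/
theorem class_fn (hM : 1 ≤ M) (H : HCh M φ)
    (hs : ∀ z, IsCoprime z (M : Qd 0 1) → φ (star z) = φ z) {z w : Qd 0 1}
    (hw : (nm w).Coprime (8 * M)) (h : ((8 * M : ℕ) : ℤ) ∣ (nm z : ℤ) - (nm w : ℤ)) :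
    φ z = φ w := by
  have hwM : (nm w).Coprime M := Nat.Coprime.coprime_dvd_right (Dvd.intro_left 8 rfl) hw
  have hc := cop_of_nm hwM
  obtain ⟨k, b, hkb⟩ := Nat.isCoprime_iff_coprime.2 hw
  -- `k * nm w ≡ 1`
  have hnmk : ∀ z : Qd 0 1, (nm ((k : Qd 0 1) * (z * star w)) : ℤ) = k ^ 2 * nm z * nm w := by
    intro z
    rw [nm_mul, nm_mul, nm_star, nm_intCast]
    push_cast
    rw [sq_abs]
    ring
  have h1 : φ ((k : Qd 0 1) * (z * star w)) = 1 := by
    refine ker hM H hs ?_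
    rw [hnmk]
    obtain ⟨c, hc⟩ := h
    refine ⟨c * (k ^ 2 * nm w) - b * (1 + k * nm w), ?_⟩
    have e1 : (nm z : ℤ) = nm w + ((8 * M : ℕ) : ℤ) * c := by linarith
    rw [e1]
    linear_combination (1 + k * (nm w : ℤ)) * hkb
  have h2 : φ ((k : Qd 0 1) * (w * star w)) = 1 := by
    refine ker hM H hs ?_
    rw [hnmk]
    refine ⟨- b * (1 + k * nm w), ?_⟩
    linear_combination (1 + k * (nm w : ℤ)) * hkb
  rw [H.mul, H.mul, hs w hc] at h1 h2
  have h3 : φ (k : Qd 0 1) * (φ w * φ w) ≠ 0 := by rw [h2]; exact one_ne_zero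
  have h4 : φ (k : Qd 0 1) ≠ 0 := left_ne_zero_of_mul h3
  have h5 : φ w ≠ 0 := left_ne_zero_of_mul (right_ne_zero_of_mul h3)
  have h6 : φ (k : Qd 0 1) * (φ z * φ w) = φ (k : Qd 0 1) * (φ w * φ w) := by rw [h1, h2]
  exact mul_right_cancel₀ h5 (mul_left_cancel₀ h4 h6)

/-- the class `a` or `-a`, congruent to `1` modulo `4` -/
noncomputable def s4 (N : ℕ) (a : (ZMod N)ˣ) : (ZMod N)ˣ :=
  if (a : ZMod N).val % 4 = 1 then a else -a

theorem val_mod {N : ℕ} [NeZero N] (h4 : 4 ∣ N) {a : ZMod N} {x : ℤ} (h : (x : ZMod N) = a) :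
    (a.val : ℤ) % 4 = x % 4 := by
  have h1 : ((a.val : ℤ) : ZMod N) = (x : ZMod N) := by
    rw [h]; simp
  rw [ZMod.intCast_eq_intCast_iff] at h1
  have h2 : (4 : ℤ) ∣ (N : ℤ) := by exact_mod_cast h4
  exact h1.of_dvd h2

theorem val_odd {N : ℕ} [NeZero N] (h4 : 4 ∣ N) (a : (ZMod N)ˣ) : (a : ZMod N).val % 2 = 1 := by
  have hcop : (a : ZMod N).val.Coprime N := ZMod.val_coe_unit_coprime a
  have h2 : (a : ZMod N).val.Coprime 2 :=
    Nat.Coprime.coprime_dvd_right (dvd_trans (by norm_num) h4) hcop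
  exact Nat.odd_iff.1 ((Nat.coprime_comm.1 h2).odd_of_left)

theorem s4_val {N : ℕ} [NeZero N] (h4 : 4 ∣ N) (a : (ZMod N)ˣ) :
    ((s4 N a : (ZMod N)ˣ) : ZMod N).val % 4 = 1 := by
  unfold s4
  split_ifs with h
  · exact h
  · have h1 := val_odd h4 a
    have h2 := val_mod h4 (a := (((-a : (ZMod N)ˣ)) : ZMod N)) (x := -((a : ZMod N).val : ℤ)) (by
      push_cast
      simp)
    omega

theorem val_mul_mod {N : ℕ} [NeZero N] (h4 : 4 ∣ N) (a b : ZMod N) :
    (a * b).val % 4 = (a.val * b.val) % 4 := by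
  have h := val_mod h4 (a := a * b) (x := ((a.val * b.val : ℕ) : ℤ)) (by
    push_cast
    simp)
  omega

theorem s4_mul {N : ℕ} [NeZero N] (h4 : 4 ∣ N) (a b : (ZMod N)ˣ) :
    s4 N (a * b) = s4 N a * s4 N b := by
  have h1 := val_odd h4 a
  have h2 := val_odd h4 b
  have h3 := val_mul_mod h4 (a : ZMod N) (b : ZMod N)
  rw [Nat.mul_mod] at h3
  unfold s4
  rw [Units.val_mul]
  have ha : (a : ZMod N).val % 4 = 1 ∨ (a : ZMod N).val % 4 = 3 := by omega
  have hb : (b : ZMod N).val % 4 = 1 ∨ (b : ZMod N).val % 4 = 3 := by omega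
  rcases ha with ha | ha <;> rcases hb with hb | hb <;> rw [ha, hb] at h3 <;> norm_num at h3 <;>
    rw [h3, ha, hb] <;> norm_num

/-- an element with norm in the class of `s4 a` -/
theorem ex_el {N : ℕ} [NeZero N] (h4 : 4 ∣ N) (a : (ZMod N)ˣ) :
    ∃ z : Qd 0 1, ((nm z : ℕ) : ZMod N) = (s4 N a : (ZMod N)ˣ) := by
  obtain ⟨x, y, h⟩ := (Pool.Agent.N912.PM.norm_four h4 (s4 N a)).2 (s4_val h4 a)
  refine ⟨⟨x, y⟩, ?_⟩
  have h1 : ((nm (⟨x, y⟩ : Qd 0 1) : ℕ) : ZMod N) = (((nm (⟨x, y⟩ : Qd 0 1) : ℕ) : ℤ) : ZMod N) := by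
    push_cast; rfl
  rw [h1, nm_i, ← h]
  push_cast
  ring

/-- **conjugation invariant characters come from Dirichlet characters** -/
theorem dirichlet (hM : 1 ≤ M) (H : HCh M φ)
    (hs : ∀ z, IsCoprime z (M : Qd 0 1) → φ (star z) = φ z) :
    ∃ ψ : DirichletCharacter ℂ (8 * M), ∀ z : Qd 0 1, (nm z).Coprime (8 * M) →
      nm z % 4 = 1 → ψ ((nm z : ℕ) : ZMod (8 * M)) = φ z := by
  have hN : NeZero (8 * M) := ⟨by omega⟩
  have h4 : 4 ∣ 8 * M := ⟨2 * M, by ring⟩
  choose el hel using fun a : (ZMod (8 * M))ˣ => ex_el h4 a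
  have hcopu : ∀ {z : Qd 0 1} {b : (ZMod (8 * M))ˣ}, ((nm z : ℕ) : ZMod (8 * M)) = b →
      (nm z).Coprime (8 * M) := by
    intro z b hzb
    rw [← ZMod.isUnit_iff_coprime, hzb]
    exact b.isUnit
  have hval : ∀ {z : Qd 0 1}, (nm z).Coprime (8 * M) → φ z ≠ 0 := by
    intro z hz
    exact (H.ne z).2 (cop_of_nm (Nat.Coprime.coprime_dvd_right (Dvd.intro_left 8 rfl) hz))
  have hcl : ∀ {z w : Qd 0 1}, (nm w).Coprime (8 * M) →
      ((nm z : ℕ) : ZMod (8 * M)) = ((nm w : ℕ) : ZMod (8 * M)) → φ z = φ w := by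
    intro z w hw hzw
    refine class_fn hM H hs hw ?_
    have h1 : (nm w) ≡ (nm z) [MOD (8 * M)] := ((ZMod.natCast_eq_natCast_iff _ _ _).1 hzw).symm
    have h2 := (Nat.modEq_iff_dvd.1 h1)
    exact_mod_cast h2
  obtain ⟨g, hg⟩ : ∃ g : (ZMod (8 * M))ˣ →* ℂˣ, ∀ a, ((g a : ℂˣ) : ℂ) = φ (el a) := by
    refine ⟨MonoidHom.mk' (fun a => Units.mk0 (φ (el a)) (hval (hcopu (hel a))))
      fun a b => ?_, fun a => rfl⟩
    apply Units.ext
    rw [Units.val_mul, Units.val_mk0, Units.val_mk0, Units.val_mk0, ← H.mul]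
    refine hcl ?_ ?_
    · rw [nm_mul]
      exact Nat.Coprime.mul_left (hcopu (hel a)) (hcopu (hel b))
    · rw [hel, nm_mul, Nat.cast_mul, hel, hel, s4_mul h4, Units.val_mul]
  refine ⟨MulChar.ofUnitHom g, fun z hz hz4 => ?_⟩
  obtain ⟨a, ha⟩ : ∃ a : (ZMod (8 * M))ˣ, (a : ZMod (8 * M)) = ((nm z : ℕ) : ZMod (8 * M)) :=
    ⟨ZMod.unitOfCoprime _ hz, ZMod.coe_unitOfCoprime _ hz⟩
  rw [← ha, MulChar.ofUnitHom_coe, hg]
  refine (hcl (hcopu (hel a)) ?_).symm
  rw [hel]
  have h5 : s4 (8 * M) a = a := by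
    unfold s4
    rw [if_pos]
    have h6 := val_mod h4 (a := (a : ZMod (8 * M))) (x := ((nm z : ℕ) : ℤ)) (by rw [ha]; simp)
    omega
  rw [h5, ha]

end

/-- the elements of norm `p` -/
theorem ex_norm {p : ℕ} (hp : p.Prime) (h4 : p % 4 = 1) : ∃ z : Qd 0 1, nm z = p := by
  have : Fact p.Prime := ⟨hp⟩
  obtain ⟨x, y, hxy⟩ := Nat.Prime.sq_add_sq (p := p) (by omega)
  refine ⟨⟨x, y⟩, ?_⟩
  have h := nm_i x y
  have h2 : ((nm (⟨(x : ℤ), (y : ℤ)⟩ : Qd 0 1) : ℕ) : ℤ) = ((p : ℕ) : ℤ) := by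
    rw [h, ← hxy]; push_cast; ring
  exact_mod_cast h2

theorem pow_dist1 {u : ℂ} (hu : ‖u‖ = 1) (N : ℕ) : ‖1 - u ^ N‖ ≤ N * ‖1 - u‖ := by
  induction N with
  | zero => simp
  | succ N ih =>
    have h2 : 1 - u ^ (N + 1) = (1 - u ^ N) + u ^ N * (1 - u) := by ring
    rw [h2]
    refine (norm_add_le _ _).trans ?_
    rw [norm_mul, norm_pow, hu, one_pow, one_mul]
    push_cast
    linarith

/-- roots of unity different from `1` are not close to `1` -/
theorem root_far {u : ℂ} {N : ℕ} (hN : 1 ≤ N) (h : u ^ N = 1) (h1 : u ≠ 1) :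
    1 / (2 * (N : ℝ) ^ 2) ≤ 1 - u.re := by
  have hu : ‖u‖ = 1 := Complex.norm_eq_one_of_pow_eq_one h (by omega)
  have hN0 : (0 : ℝ) < N := by exact_mod_cast hN
  have hsum : ∑ i ∈ range N, u ^ i = 0 := by
    have h2 := geom_sum_mul u N
    rw [h, sub_self] at h2
    rcases mul_eq_zero.1 h2 with h3 | h3
    · exact h3
    · exact absurd (sub_eq_zero.1 h3) h1
  have h2 : (N : ℂ) = ∑ i ∈ range N, (1 - u ^ i) := by
    rw [sum_sub_distrib, hsum, sum_const, card_range, nsmul_eq_mul, mul_one, sub_zero]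
  have h3 : (N : ℝ) ≤ ∑ i ∈ range N, (N : ℝ) * ‖1 - u‖ := by
    have h4 : (N : ℝ) = ‖(N : ℂ)‖ := by rw [Complex.norm_natCast]
    rw [h4, h2]
    refine (norm_sum_le _ _).trans (sum_le_sum fun i hi => ?_)
    refine (pow_dist1 hu i).trans (mul_le_mul_of_nonneg_right ?_ (norm_nonneg _))
    have h5 : i ≤ N := (mem_range.1 hi).le
    have h6 : (i : ℝ) ≤ N := by exact_mod_cast h5
    rw [← h2, ← h4]
    exact h6
  rw [sum_const, card_range, nsmul_eq_mul] at h3
  have h4 : 1 / (N : ℝ) ≤ ‖1 - u‖ := by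
    rw [div_le_iff₀ hN0]
    have h5 : (N : ℝ) * 1 ≤ N * (‖1 - u‖ * N) := by
      calc (N : ℝ) * 1 = N := mul_one _
        _ ≤ N * (N * ‖1 - u‖) := h3
        _ = _ := by ring
    exact le_of_mul_le_mul_left h5 hN0
  have h5 := pow_le_pow_left₀ (by positivity) h4 2
  rw [norm_sub_sq hu] at h5
  have h6 : (1 / (N : ℝ)) ^ 2 = 2 * (1 / (2 * (N : ℝ) ^ 2)) := by
    field_simp
  rw [h6] at h5
  linarith

theorem dist_uv {u v : ℂ} (hu : ‖u‖ = 1) (hv : ‖v‖ = 1) :
    1 - (u * (starRingEnd ℂ) v).re ≤ 2 * (1 - u.re) + 2 * (1 - v.re) := by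
  have h1 := norm_sub_sq hu
  have h2 := norm_sub_sq hv
  have h3 : ‖u - v‖ ^ 2 = 2 * (1 - (u * (starRingEnd ℂ) v).re) := by
    rw [← Complex.normSq_eq_norm_sq, Complex.normSq_sub, Complex.normSq_eq_norm_sq,
      Complex.normSq_eq_norm_sq, hu, hv]
    ring
  have h4 : ‖u - v‖ ≤ ‖1 - v‖ + ‖1 - u‖ := by
    have : u - v = (1 - v) - (1 - u) := by ring
    rw [this]
    exact norm_sub_le _ _
  have h5 := pow_le_pow_left₀ (norm_nonneg _) h4 2
  have h6 : (‖1 - v‖ + ‖1 - u‖) ^ 2 ≤ 2 * ‖1 - v‖ ^ 2 + 2 * ‖1 - u‖ ^ 2 := by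
    nlinarith [sq_nonneg (‖1 - v‖ - ‖1 - u‖)]
  rw [h3] at h5
  nlinarith

open scoped Classical in
/-- functions whose values are roots of unity and which are not close to a Dirichlet character on the
primes `1 mod 4` are not close to a character of the Gaussian integers -/
theorem far_of {N : ℕ} (hN1 : 1 ≤ N) {F : ℕ → ℂ} (hFN : ∀ n, F n ^ N = 1)
    (hfar : ∀ (M : ℕ), 1 ≤ M → ∀ ψ : DirichletCharacter ℂ M,
      ¬ Summable (fun p : ℕ => if p.Prime ∧ p % 4 = 1 ∧ F p ≠ ψ (p : ZMod M) then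
        1 / (p : ℝ) else 0)) : Far 0 1 N F := by
  intro M φ hM H hN hsum
  obtain ⟨f, χ, hFd⟩ := Pool.Agent.W251.EG.fd4
  have hD := hD01
  have hu : (0 : ℝ) < uc 0 1 := by exact_mod_cast uc_pos hD
  have hFn : ∀ n, ‖F n‖ = 1 := fun n => Complex.norm_eq_one_of_pow_eq_one (hFN n) (by omega)
  -- conjugation invariance
  have hθ : HCh M (fun z => φ z * (starRingEnd ℂ) (φ (star z))) := by
    refine ⟨fun z z' h1 h2 => ?_, fun z z' => ?_, ?_, fun u hu => ?_, fun z => ?_⟩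
    · beta_reduce
      rw [H.per z z' h1 h2, H.per (star z) (star z')]
      · simpa using h1
      · have e : (star z).im - (star z').im = -(z.im - z'.im) := by
          simp only [QuadraticAlgebra.im_star]; ring
        rw [e]
        exact (dvd_neg).2 h2
    · beta_reduce
      rw [star_mul, H.mul, H.mul, map_mul]
      ring
    · beta_reduce
      rw [star_one, H.one, map_one, one_mul]
    · beta_reduce
      rw [H.unit u hu, H.unit (star u) (by rw [nm_star]; exact hu), map_one, one_mul]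
    · beta_reduce
      constructor
      · intro h
        exact (H.ne z).1 (left_ne_zero_of_mul h)
      · intro h
        exact mul_ne_zero ((H.ne z).2 h)
          ((map_ne_zero (starRingEnd ℂ)).2 ((H.ne _).2 (cop_star h)))
  have hsθ : Summable (gg (rr 0 1)
      (fun n => (1 : ℂ) * aL (fun z => φ z * (starRingEnd ℂ) (φ (star z))) n) 0 0) := by
    refine summ_of_prime (K := 4) hM (fun n => gg_nonneg (fun n => ?_) _ _ n)
      (fun n hn => gg_zero hn) (fun p hp hpM => ?_) hsum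
    · rw [norm_mul, norm_one, one_mul]
      exact aL_le hD (phi_le hM hθ) n
    · rw [deficit hD (F := fun _ => 1) _ hp, deficit hD _ hp]
      have h0 : (0 : ℝ) ≤ (p : ℝ) ^ (-(1 : ℝ)) := by positivity
      obtain ⟨T, hT⟩ : ∃ T : Finset (Qd 0 1), T = (ball 0 1 (p : ℝ)).filter
        (fun z => nm z = p) := ⟨_, rfl⟩
      rw [← hT]
      have hstar : ∑ z ∈ T, (1 - (F p * φ (star z)).re) = ∑ z ∈ T, (1 - (F p * φ z).re) := by
        refine sum_nbij' (fun z => star z) (fun z => star z) ?_ ?_ (fun z _ => star_star z)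
          (fun z _ => star_star z) (fun z _ => rfl)
        · intro z hz
          rw [hT, mem_filter, mem_ball hD] at hz ⊢
          rw [nm_star]
          exact hz
        · intro z hz
          rw [hT, mem_filter, mem_ball hD] at hz ⊢
          rw [nm_star]
          exact hz
      have h1 : ∑ z ∈ T, (1 - ((1 : ℂ) * (φ z * (starRingEnd ℂ) (φ (star z))) *
          (p : ℂ) ^ (-(((0 : ℝ) : ℂ) * Complex.I))).re) ≤
          4 * ∑ z ∈ T, (1 - (F p * φ z * (p : ℂ) ^ (-(((0 : ℝ) : ℂ) * Complex.I))).re) := by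
        simp only [Complex.ofReal_zero, zero_mul, neg_zero, Complex.cpow_zero, mul_one, one_mul]
        have h2 : 4 * ∑ z ∈ T, (1 - (F p * φ z).re) =
            ∑ z ∈ T, (2 * (1 - (F p * φ z).re) + 2 * (1 - (F p * φ (star z)).re)) := by
          rw [sum_add_distrib, ← mul_sum, ← mul_sum, hstar]
          ring
        rw [h2]
        refine sum_le_sum fun z hz => ?_
        have hzp : nm z = p := by
          rw [hT] at hz
          exact (mem_filter.1 hz).2
        have hc := cop_of_prime hD hp hpM hzp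
        have h3 : ‖F p * φ z‖ = 1 := by rw [norm_mul, hFn, phi_one hM H hc, one_mul]
        have h4 : ‖F p * φ (star z)‖ = 1 := by
          rw [norm_mul, hFn, phi_one hM H (cop_star hc), one_mul]
        have h5 := dist_uv h3 h4
        have h6 : F p * φ z * (starRingEnd ℂ) (F p * φ (star z)) =
            φ z * (starRingEnd ℂ) (φ (star z)) := by
          have h7 : F p * (starRingEnd ℂ) (F p) = 1 := by
            rw [Complex.mul_conj, Complex.normSq_eq_norm_sq, hFn]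
            simp
          rw [map_mul]
          calc F p * φ z * ((starRingEnd ℂ) (F p) * (starRingEnd ℂ) (φ (star z))) =
              (F p * (starRingEnd ℂ) (F p)) * (φ z * (starRingEnd ℂ) (φ (star z))) := by ring
            _ = _ := by rw [h7, one_mul]
        rw [h6] at h5
        exact h5
      calc _ ≤ (p : ℝ) ^ (-(1 : ℝ)) * ((4 * ∑ z ∈ T, (1 - (F p * φ z *
            (p : ℂ) ^ (-(((0 : ℝ) : ℂ) * Complex.I))).re)) / uc 0 1) :=
            mul_le_mul_of_nonneg_left (div_le_div_of_nonneg_right h1 hu.le) h0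
        _ = _ := by ring
  have htriv : ∀ z, φ z * (starRingEnd ℂ) (φ (star z)) ≠ 0 →
      φ z * (starRingEnd ℂ) (φ (star z)) = 1 := by
    by_contra hcon
    push Not at hcon
    exact char_far hFd hM hθ 0 (Or.inr hcon) hsθ
  have hs : ∀ z, IsCoprime z (M : Qd 0 1) → φ (star z) = φ z := by
    intro z hz
    have h1 := (H.ne z).2 hz
    have h2 := (H.ne _).2 (cop_star hz)
    have h3 := htriv z (mul_ne_zero h1 ((map_ne_zero (starRingEnd ℂ)).2 h2))
    have h4 : φ (star z) * (starRingEnd ℂ) (φ (star z)) = 1 := by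
      rw [Complex.mul_conj, Complex.normSq_eq_norm_sq, phi_one hM H (cop_star hz)]
      simp
    exact mul_right_cancel₀ ((map_ne_zero (starRingEnd ℂ)).2 h2) (h4.trans h3.symm)
  obtain ⟨ψ, hψ⟩ := dirichlet hM H hs
  refine hfar (8 * M) (by omega) ψ⁻¹ ?_
  refine summ_of_prime (M := 8 * M) (K := 2 * N ^ 2 * uc 0 1)
    (h := gg (rr 0 1) (fun n => F n * aL φ n) 0 0)
    (by omega) (fun n => ?_) (fun n hn => ?_) (fun p hp hpM => ?_) hsum
  · split_ifs
    · positivity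
    · exact le_rfl
  · exact if_neg fun h => hn h.1
  · have hp0 : (0 : ℝ) < p := by exact_mod_cast hp.pos
    have hN0 : (0 : ℝ) < N := by exact_mod_cast hN1
    have hnn := gg_nonneg (r := rr 0 1) (a := fun n => F n * aL φ n) (fun n => by
      rw [norm_mul, hFn, one_mul]
      exact aL_le hD (phi_le hM H) n) 0 0 p
    split_ifs with hcond
    · obtain ⟨_, h4, hne⟩ := hcond
      rw [deficit hD _ hp]
      obtain ⟨T, hT⟩ : ∃ T : Finset (Qd 0 1), T = (ball 0 1 (p : ℝ)).filter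
        (fun z => nm z = p) := ⟨_, rfl⟩
      rw [← hT]
      have hcopp : p.Coprime (8 * M) := (Nat.Prime.coprime_iff_not_dvd hp).2 hpM
      have hpM' : ¬ p ∣ M := fun h => hpM (Dvd.dvd.mul_left h 8)
      have hterm : ∀ z ∈ T, 1 / (2 * (N : ℝ) ^ 2) ≤ (1 - (F p * φ z *
          (p : ℂ) ^ (-(((0 : ℝ) : ℂ) * Complex.I))).re) := by
        intro z hz
        have hzp : nm z = p := by
          rw [hT] at hz
          exact (mem_filter.1 hz).2
        have h5 := hψ z (by rw [hzp]; exact hcopp) (by rw [hzp]; exact h4)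
        rw [hzp] at h5
        have hc := cop_of_prime hD hp hpM' hzp
        have hφ0 := (H.ne z).2 hc
        simp only [Complex.ofReal_zero, zero_mul, neg_zero, Complex.cpow_zero, mul_one]
        refine root_far hN1 ?_ ?_
        · rw [mul_pow, hFN, hN z hφ0, one_mul]
        · intro h6
          apply hne
          have hu' : IsUnit ((p : ℕ) : ZMod (8 * M)) := (ZMod.isUnit_iff_coprime _ _).2 hcopp
          have h7 : ψ⁻¹ ((p : ℕ) : ZMod (8 * M)) * ψ ((p : ℕ) : ZMod (8 * M)) = 1 := by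
            rw [← MulChar.mul_apply, inv_mul_cancel]
            exact MulChar.one_apply hu'
          rw [h5] at h7
          exact mul_right_cancel₀ hφ0 (h6.trans h7.symm)
      obtain ⟨z₀, hz₀⟩ := ex_norm hp h4
      have hTc : (1 : ℝ) ≤ T.card := by
        have : 0 < T.card := by
          rw [Finset.card_pos]
          refine ⟨z₀, ?_⟩
          rw [hT, mem_filter, mem_ball hD, hz₀]
          exact ⟨⟨hp.pos, le_rfl⟩, rfl⟩
        exact_mod_cast this
      have h8 := sum_le_sum hterm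
      rw [sum_const, nsmul_eq_mul] at h8
      have h9 : 1 / (2 * (N : ℝ) ^ 2) ≤ ∑ z ∈ T, (1 - (F p * φ z *
          (p : ℂ) ^ (-(((0 : ℝ) : ℂ) * Complex.I))).re) := by
        refine le_trans ?_ h8
        have : (0 : ℝ) < 1 / (2 * (N : ℝ) ^ 2) := by positivity
        nlinarith
      rw [Real.rpow_neg hp0.le, Real.rpow_one]
      obtain ⟨Q, hQ⟩ : ∃ Q : ℝ, Q = ∑ z ∈ T, (1 - (F p * φ z *
          (p : ℂ) ^ (-(((0 : ℝ) : ℂ) * Complex.I))).re) := ⟨_, rfl⟩
      rw [← hQ] at h9 ⊢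
      have e : 2 * (N : ℝ) ^ 2 * (uc 0 1 : ℝ) * ((p : ℝ)⁻¹ * (Q / (uc 0 1 : ℝ))) =
          2 * (N : ℝ) ^ 2 * Q * (1 / p) := by
        field_simp
      rw [e]
      have h10 : 1 ≤ 2 * (N : ℝ) ^ 2 * Q := by
        have h11 := mul_le_mul_of_nonneg_left h9 (show (0 : ℝ) ≤ 2 * (N : ℝ) ^ 2 by positivity)
        have h12 : 2 * (N : ℝ) ^ 2 * (1 / (2 * (N : ℝ) ^ 2)) = 1 := by field_simp
        rw [h12] at h11
        exact h11
      calc 1 / (p : ℝ) = 1 * (1 / p) := (one_mul _).symm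
        _ ≤ _ := mul_le_mul_of_nonneg_right h10 (by positivity)
    · positivity

end Pool.Agent.N912.HL
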